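import Mathlib

set_option autoImplicit false

/-!
# Project TL, third part: systems of forms in many variables
-/

namespace Pool.Agent.Q49.TL

open MvPolynomial

/-- Over `K` every diagonal form of degree `d` in at least `ψ d` variables has a nontrivial
zero. -/
def Diag (ψ : ℕ → ℕ) (K : Type) [Field K] : Prop :=
  ∀ d, 0 < d → ∀ s, ψ d ≤ s → ∀ a : Fin s → K, ∃ x : Fin s → K, x ≠ 0 ∧ ∑ i, a i * x i ^ d = 0

/-- The restriction of a polynomial to the space spanned by the vectors `v k`. -/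
noncomputable def res {K : Type} [Field K] {n m : ℕ} (v : Fin m → Fin n → K)
    (f : MvPolynomial (Fin n) K) : MvPolynomial (Fin m) K :=
  aeval (fun i => ∑ k, C (v k i) * X k) f

/-- BRA: the theorem of Brauer -/
def S_BRA : Prop := ∀ (ψ : ℕ → ℕ) (D r m : ℕ), ∃ N : ℕ, ∀ (K : Type) [Field K], Diag ψ K →
  ∀ n : ℕ, N ≤ n → ∀ (e : Fin r → ℕ) (f : Fin r → MvPolynomial (Fin n) K),
    (∀ j, 0 < e j) → (∀ j, e j ≤ D) → (∀ j, (f j).IsHomogeneous (e j)) →
    ∃ v : Fin m → Fin n → K, LinearIndependent K v ∧ ∀ j, res v (f j) = 0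

/-- DQP: diagonal forms over the `p`-adic numbers, uniformly in `p` -/
def S_DQP : Prop := ∃ ψ : ℕ → ℕ, ∀ (p : ℕ) [Fact p.Prime], Diag ψ ℚ_[p]

end Pool.Agent.Q49.TL
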