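import Pool.Agent.Q49.TL.Alg

set_option autoImplicit false

/-!
# Project TL, second part: unramified extensions of the p-adic numbers
-/

namespace Pool.Agent.Q49.TL

open MvPolynomial

/-- The substitution `x = P / Q` in `f`, multiplied by `Q ^ N`. -/
noncomputable def hmg {ι A R : Type} [CommRing A] [CommRing R] [Algebra A R] (N : ℕ) (P : ι → R)
    (Q : R) (f : MvPolynomial ι A) : R :=
  ∑ a ∈ f.support, algebraMap A R (f.coeff a) * (a.prod fun i k => P i ^ k) * Q ^ (N - a.degree)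

/-- The map from the `p`-adic integers to the Witt vectors over an extension of the field with
`p` elements. -/
noncomputable def tau (p : ℕ) [Fact p.Prime] (k : Type) [Field k] [Algebra (ZMod p) k] :
    ℤ_[p] →+* WittVector p k :=
  (WittVector.map (algebraMap (ZMod p) k)).comp (WittVector.equiv p).symm.toRingHom

/-- Finite extensions, of degree prime to `ℓ`, of the field with `p` elements. -/
structure FinF (p ℓ : ℕ) [Fact p.Prime] : Type 1 where
  k : Type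
  [fld : Field k]
  [fin : Finite k]
  [alg : Algebra (ZMod p) k]
  deg : ¬ ℓ ∣ Module.finrank (ZMod p) k

attribute [instance] FinF.fld FinF.fin FinF.alg

/-- GWI: the Witt components of a form are forms -/
def S_GWI : Prop := ∀ (p : ℕ) [Fact p.Prime] (k : Type) [Field k] [Algebra (ZMod p) k]
  (ι : Type) [Finite ι] (w : ι → ℕ) (e : ℕ) (f : MvPolynomial ι ℤ_[p]),
  IsWeightedHomogeneous w f e →
  ∃ G : ℕ → MvPolynomial (ι × ℕ) k,
    (∀ m, IsWeightedHomogeneous (fun s : ι × ℕ => w s.1 * p ^ s.2) (G m) (e * p ^ m)) ∧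
    ∀ (x : ι → WittVector p k) (m : ℕ),
      (eval₂ (tau p k) x f).coeff m = eval (fun s : ι × ℕ => (x s.1).coeff s.2) (G m)

/-- KAP: the prime-to-`ℓ` algebraic extension of the field with `p` elements -/
def S_KAP : Prop := ∀ (p ℓ : ℕ) [Fact p.Prime] [Fact ℓ.Prime],
  ∃ (κ : Type) (_ : Field κ) (_ : Algebra (ZMod p) κ), Algebra.IsAlgebraic (ZMod p) κ ∧
    (∀ g : Polynomial κ, Irreducible g → g.natDegree ≠ 1 → ℓ ∣ g.natDegree) ∧
    ∀ S : Finset κ, ∃ K : IntermediateField (ZMod p) κ, (∀ x ∈ S, x ∈ K) ∧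
      FiniteDimensional (ZMod p) K ∧ ¬ ℓ ∣ Module.finrank (ZMod p) K

/-- TK: the theorem of Chevalley at the prime `ℓ` for algebraic extensions of finite fields -/
def S_TK : Prop := ∀ (p ℓ : ℕ) [Fact p.Prime] [Fact ℓ.Prime] (κ : Type) [Field κ]
  [Algebra (ZMod p) κ], Algebra.IsAlgebraic (ZMod p) κ →
  (∀ g : Polynomial κ, Irreducible g → g.natDegree ≠ 1 → ℓ ∣ g.natDegree) →
  Tsen (fun d => ℓ ^ d.factorization ℓ) κ

/-- WIT: solutions modulo all powers of `p` -/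
def S_WIT : Prop := ∀ (p ℓ : ℕ) [Fact p.Prime] [Fact ℓ.Prime], p ≠ ℓ →
  ∀ (ι κ : Type) [Fintype ι] [Fintype κ] (w : ι → ℕ) (e : κ → ℕ)
    (f : κ → MvPolynomial ι ℤ_[p]),
    (∀ i, 0 < w i) → (∀ j, 0 < e j) → (∀ j, IsWeightedHomogeneous w (f j) (e j)) →
    ∑ j, e j * ℓ ^ (e j).factorization ℓ < ∑ i, w i * ℓ ^ (w i).factorization ℓ →
    ∀ c : ℕ, ∃ (F : FinF p ℓ) (x : ι → WittVector p F.k),
      (∃ i, ¬ (p : WittVector p F.k) ^ w i ∣ x i) ∧
      ∀ j, (p : WittVector p F.k) ^ c ∣ eval₂ (tau p F.k) x (f j)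

/-- GEN: generic presentation of a variety as a separable cover -/
def S_GEN : Prop := ∀ (A : Type) [CommRing A] [IsDomain A] [CharZero A] (ι : Type) [Finite ι]
  (q : Ideal (MvPolynomial ι A)), q.IsPrime → (∀ a : A, C a ∈ q → a = 0) →
  ∀ (κ : Type) [Fintype κ] (f : κ → MvPolynomial ι A), (∀ j, f j ∈ q) →
  ∃ (N : ℕ) (Θ a Q : MvPolynomial ι A) (G : Polynomial (MvPolynomial ι A))
    (P : ι → Polynomial (MvPolynomial ι A)) (S : κ → Polynomial (MvPolynomial ι A)),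
    (∀ j, (f j).totalDegree ≤ N) ∧ a ∉ q ∧ Q ∉ q ∧ G.eval Θ ∈ q ∧ G.derivative.eval Θ ∉ q ∧
    (∀ i, Q * X i - (P i).eval Θ ∈ q) ∧
    ∀ j, Polynomial.C a * hmg N P (Polynomial.C Q) (f j) = G * S j

/-- HEN: the lemma of Hensel-Newton -/
def S_HEN : Prop := ∀ (B : Type) [CommRing B] [HenselianLocalRing B] (g : Polynomial B) (b ε : B),
  ε ∈ IsLocalRing.maximalIdeal B → g.eval b = (g.derivative.eval b) ^ 2 * ε →
  ∃ u : B, g.eval (b + g.derivative.eval b * ε * u) = 0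

/-- GRB: the approximation theorem of Greenberg, for a family of extensions -/
def S_GRB : Prop := ∀ (A : Type) [CommRing A] [IsDomain A] [IsDiscreteValuationRing A]
  [CharZero A] (π : A), Irreducible π →
  ∀ (I : Type 1) (B : I → Type) [∀ i, CommRing (B i)] [∀ i, IsDomain (B i)]
    [∀ i, IsDiscreteValuationRing (B i)] [∀ i, HenselianLocalRing (B i)]
    [∀ i, Algebra A (B i)], (∀ i, Irreducible (algebraMap A (B i) π)) →
  ∀ (ι κ : Type) [Finite ι] [Fintype κ] (w : ι → ℕ) (f : κ → MvPolynomial ι A),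
    (∀ c : ℕ, ∃ (i : I) (x : ι → B i), (∃ j, ¬ (algebraMap A (B i) π) ^ w j ∣ x j) ∧
      ∀ j, (algebraMap A (B i) π) ^ c ∣ aeval x (f j)) →
    ∃ (i : I) (x : ι → B i), x ≠ 0 ∧ ∀ j, aeval x (f j) = 0

/-- UNR: the unramified extensions of the field of `p`-adic numbers -/
def S_UNR : Prop := ∀ (p : ℕ) [Fact p.Prime] (k : Type) [Field k] [Finite k]
  [Algebra (ZMod p) k], ∃ (K : Type) (_ : Field K) (_ : Algebra ℚ_[p] K)
    (ρ : WittVector p k →+* K), FiniteDimensional ℚ_[p] K ∧ IsGalois ℚ_[p] K ∧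
    Module.finrank ℚ_[p] K = Module.finrank (ZMod p) k ∧ Function.Injective ρ ∧
    ∀ a : ℤ_[p], ρ (tau p k a) = algebraMap ℚ_[p] K (a : ℚ_[p])

/-- DSC: restriction of scalars -/
def S_DSC : Prop := ∀ (K0 K : Type) [Field K0] [CharZero K0] [Field K] [Algebra K0 K]
  [FiniteDimensional K0 K] (ι κ : Type) [Fintype ι] [Fintype κ] (w : ι → ℕ) (e : κ → ℕ)
  (f : κ → MvPolynomial ι K), (∀ j, IsWeightedHomogeneous w (f j) (e j)) →
  ∃ (m : ℕ) (g : κ × Fin m → MvPolynomial (ι × Fin m) K0), 0 < m ∧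
    (∀ j, IsWeightedHomogeneous (fun s : ι × Fin m => w s.1) (g j) (e j.1)) ∧
    ∀ (K1 : Type) [Field K1] [Algebra K0 K1] [FiniteDimensional K0 K1] [IsGalois K0 K1] (ℓ : ℕ)
      [Fact ℓ.Prime], ¬ ℓ ∣ Module.finrank K0 K1 → ∀ y : ι × Fin m → K1, y ≠ 0 →
      (∀ j, aeval y (g j) = 0) →
      ∃ (L : Type) (_ : Field L) (_ : Algebra K L), FiniteDimensional K L ∧
        ¬ ℓ ∣ Module.finrank K L ∧ ∃ x : ι → L, x ≠ 0 ∧ ∀ j, aeval x (f j) = 0

/-- BEZ: one form of degree prime to `ℓ` -/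
def S_BEZ : Prop := ∀ (K : Type) [Field K] (ℓ : ℕ) [Fact ℓ.Prime] (n d : ℕ)
  (f : MvPolynomial (Fin (n + 1)) K), 0 < n → f.IsHomogeneous d → ¬ ℓ ∣ d →
  ∃ (L : Type) (_ : Field L) (_ : Algebra K L), FiniteDimensional K L ∧
    ¬ ℓ ∣ Module.finrank K L ∧ ∃ x : Fin (n + 1) → L, x ≠ 0 ∧ aeval x f = 0

end Pool.Agent.Q49.TL
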