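import Mathlib

set_option autoImplicit false

/-!
# Project TL: Tsen-Lang theory with weights and at one prime: definitions and statements
-/

namespace Pool.Agent.Q49.TL

open MvPolynomial

/-- `K` has the weighted Tsen property with cost function `φ`: every system of weighted homogeneous
equations of weights `e j > 0` in variables of weights `w i > 0` with
`∑ φ (e j) < ∑ φ (w i)` has a nontrivial solution. -/
def Tsen (φ : ℕ → ℕ) (K : Type) [Field K] : Prop :=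
  ∀ (ι κ : Type) [Fintype ι] [Fintype κ] (w : ι → ℕ) (e : κ → ℕ) (f : κ → MvPolynomial ι K),
    (∀ i, 0 < w i) → (∀ j, 0 < e j) → (∀ j, IsWeightedHomogeneous w (f j) (e j)) →
    ∑ j, φ (e j) < ∑ i, φ (w i) → ∃ x : ι → K, x ≠ 0 ∧ ∀ j, eval x (f j) = 0

/-- `x` and `y` are joined by a conic in `f = 0`, or by two lines in `f = 0` meeting in `z`. -/
def Linked {ι κ : Type} {K : Type} [Field K] (f : κ → MvPolynomial ι K) (x y : ι → K) : Prop :=
  (∃ z : ι → K, ∀ j, aeval (fun i => Polynomial.C (x i) + Polynomial.C (z i) * Polynomial.X +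
      Polynomial.C (y i) * Polynomial.X ^ 2) (f j) = 0) ∨
  ∃ z : ι → K, z ≠ 0 ∧
    (∀ j, aeval (fun i => Polynomial.C (x i) + Polynomial.C (z i) * Polynomial.X) (f j) = 0) ∧
    ∀ j, aeval (fun i => Polynomial.C (z i) + Polynomial.C (y i) * Polynomial.X) (f j) = 0

/-! ### Weighted Tsen-Lang theory -/

/-- CW: the weighted theorem of Chevalley and Warning -/
def S_CW : Prop := ∀ (K : Type) [Field K] [Finite K], Tsen (fun d => d) K

/-- ALG: algebraic extensions -/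
def S_ALG : Prop := ∀ (φ : ℕ → ℕ) (K K' : Type) [Field K] [Field K'] [Algebra K K']
  [Algebra.IsAlgebraic K K'], Tsen φ K → Tsen φ K'

/-- TR: one variable -/
def S_TR : Prop := ∀ (φ : ℕ → ℕ) (K : Type) [Field K], Tsen φ K →
  Tsen (fun d => d * φ d) (RatFunc K)

/-- LOC: local fields of positive characteristic -/
def S_LOC : Prop := ∀ (F : Type) [Field F] [Finite F], Tsen (fun d => d * d) (LaurentSeries F)

/-- LINK: conics through two points -/
def S_LINK : Prop := ∀ (φ : ℕ → ℕ) (K : Type) [Field K], Tsen φ K →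
  ∀ (ι κ : Type) [Fintype ι] [Fintype κ] (d : κ → ℕ) (f : κ → MvPolynomial ι K),
    (∀ j, 0 < d j) → (∀ j, (f j).IsHomogeneous (d j)) →
    ∑ j, (2 * ∑ i ∈ Finset.Ico 1 (d j), φ i + φ (d j)) < (Fintype.card ι + 1) * φ 1 →
    ∀ x y : ι → K, (∀ j, eval x (f j) = 0) → (∀ j, eval y (f j) = 0) → Linked f x y

/-! ### Hilbert series modulo a prime number -/

section hs

variable {κ : Type} [Field κ] {ι : Type}

/-- The part of weight `m` of the ideal `J`. -/
noncomputable def pc (w : ι → ℕ) (J : Ideal (MvPolynomial ι κ)) (m : ℕ) : Submodule κ (MvPolynomial ι κ) :=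
  J.restrictScalars κ ⊓ weightedHomogeneousSubmodule κ w m

/-- `J` is homogeneous with respect to the weights. -/
def Gr (w : ι → ℕ) (J : Ideal (MvPolynomial ι κ)) : Prop :=
  ∀ f ∈ J, ∀ m, weightedHomogeneousComponent w m f ∈ J

/-- The generating series of the dimensions of the parts of `J`, modulo `ℓ`. -/
noncomputable def hs (ℓ : ℕ) (w : ι → ℕ) (J : Ideal (MvPolynomial ι κ)) :
    PowerSeries (ZMod ℓ) :=
  PowerSeries.mk fun m => (Module.finrank κ (pc w J m) : ZMod ℓ)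

/-- The quotient ideal `J : a`. -/
noncomputable def qt (J : Ideal (MvPolynomial ι κ)) (a : MvPolynomial ι κ) : Ideal (MvPolynomial ι κ) :=
  Submodule.comap (LinearMap.mulLeft (MvPolynomial ι κ) a) J

end hs

/-- FD: finite dimension -/
def S_FD : Prop := ∀ (κ : Type) [Field κ] (ι : Type) [Finite ι] (w : ι → ℕ), (∀ i, 0 < w i) →
  ∀ m : ℕ, FiniteDimensional κ (weightedHomogeneousSubmodule κ w m)

/-- HS: the exact sequence of the multiplication by `a` on `J' / J` -/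
def S_HS : Prop := ∀ (ℓ : ℕ) (κ : Type) [Field κ] (ι : Type) [Finite ι] (w : ι → ℕ),
  (∀ i, 0 < w i) → ∀ (J J' : Ideal (MvPolynomial ι κ)), Gr w J → Gr w J' → J ≤ J' →
  ∀ (a : MvPolynomial ι κ) (e : ℕ), IsWeightedHomogeneous w a e →
    Gr w (J ⊔ Ideal.span {a} * J') ∧ Gr w (J' ⊓ qt J a) ∧
    hs ℓ w (J ⊔ Ideal.span {a} * J') + PowerSeries.X ^ e * hs ℓ w (J' ⊓ qt J a) =
      hs ℓ w J + PowerSeries.X ^ e * hs ℓ w J'

/-- TOP: the Hilbert series of the polynomial ring -/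
def S_TOP : Prop := ∀ (ℓ : ℕ) (κ : Type) [Field κ] (ι : Type) [Fintype ι] (w : ι → ℕ),
  (∀ i, 0 < w i) →
    hs ℓ w (⊤ : Ideal (MvPolynomial ι κ)) * ∏ i, (1 - PowerSeries.X ^ w i) = 1

/-- FLD: enlarging the field of constants -/
def S_FLD : Prop := ∀ (ℓ : ℕ) (κ : Type) [Field κ] (ι : Type) [Finite ι] (w : ι → ℕ),
  (∀ i, 0 < w i) → ∀ (P : Ideal (MvPolynomial ι κ)), P.IsPrime → Gr w P →
  ∀ (g : Polynomial κ), Irreducible g → g.natDegree ≠ 1 → ℓ ∣ g.natDegree →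
  ∀ (d : ℕ) (u v : MvPolynomial ι κ), IsWeightedHomogeneous w u d → IsWeightedHomogeneous w v d →
    v ∉ P → ∑ k ∈ Finset.range (g.natDegree + 1), C (g.coeff k) * u ^ k *
      v ^ (g.natDegree - k) ∈ P →
  ∃ J : Ideal (MvPolynomial ι κ), Gr w J ∧ P < J ∧ hs ℓ w J = hs ℓ w P

/-- NOE: noetherian induction -/
def S_NOE : Prop := ∀ (ℓ : ℕ) (κ : Type) [Field κ] (ι : Type) [Finite ι] (w : ι → ℕ),
  (∀ i, 0 < w i) → ∀ I : Ideal (MvPolynomial ι κ),
  (∀ P : Ideal (MvPolynomial ι κ), P.IsPrime → Gr w P → I ≤ P → (∀ i, X i ∈ P) ∨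
    ∃ J : Ideal (MvPolynomial ι κ), Gr w J ∧ P < J ∧ hs ℓ w J = hs ℓ w P) →
  ∀ J : Ideal (MvPolynomial ι κ), Gr w J → I ≤ J →
    ∃ q : Polynomial (ZMod ℓ), hs ℓ w (⊤ : Ideal (MvPolynomial ι κ)) - hs ℓ w J = q

/-- DESC: the complex of Koszul without the complex of Koszul -/
def S_DESC : Prop := ∀ (ℓ : ℕ) (κ : Type) [Field κ] (ι : Type) [Finite ι] (w : ι → ℕ),
  (∀ i, 0 < w i) → ∀ (κ' : Type) [Fintype κ'] (e : κ' → ℕ) (f : κ' → MvPolynomial ι κ),
  (∀ j, IsWeightedHomogeneous w (f j) (e j)) →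
  (∀ J : Ideal (MvPolynomial ι κ), Gr w J → (∀ j, f j ∈ J) →
    ∃ q : Polynomial (ZMod ℓ), hs ℓ w (⊤ : Ideal (MvPolynomial ι κ)) - hs ℓ w J = q) →
  ∃ q : Polynomial (ZMod ℓ),
    (∏ j, (1 - PowerSeries.X ^ e j)) * hs ℓ w (⊤ : Ideal (MvPolynomial ι κ)) = q

/-- ORD: orders of vanishing at one -/
def S_ORD : Prop := ∀ (ℓ : ℕ) [Fact ℓ.Prime] (ι κ : Type) [Fintype ι] [Fintype κ] (w : ι → ℕ)
  (e : κ → ℕ), (∀ i, 0 < w i) → (∀ j, 0 < e j) → ∀ q : Polynomial (ZMod ℓ),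
    ∏ j, (1 - (Polynomial.X : Polynomial (ZMod ℓ)) ^ e j) =
      q * ∏ i, (1 - (Polynomial.X : Polynomial (ZMod ℓ)) ^ w i) →
    ∑ i, ℓ ^ (w i).factorization ℓ ≤ ∑ j, ℓ ^ (e j).factorization ℓ

/-! ### Points over algebraic extensions of finite fields -/

/-- Every affine variety whose function field contains no new constants has a rational point
outside of a given hypersurface. -/
def PAC (κ : Type) [Field κ] : Prop := ∀ (ι : Type) [Finite ι] (P : Ideal (MvPolynomial ι κ))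
  [P.IsPrime] (g : MvPolynomial ι κ), g ∉ P →
  (∀ z : FractionRing (MvPolynomial ι κ ⧸ P), IsAlgebraic κ z →
    z ∈ (algebraMap κ (FractionRing (MvPolynomial ι κ ⧸ P))).range) →
  ∃ x : ι → κ, (∀ h ∈ P, eval x h = 0) ∧ eval x g ≠ 0

/-- PT: homogeneous primes without points have new constants -/
def S_PT : Prop := ∀ (κ : Type) [Field κ], PAC κ → ∀ (ι : Type) [Finite ι] (w : ι → ℕ),
  (∀ i, 0 < w i) → ∀ P : Ideal (MvPolynomial ι κ), P.IsPrime → Gr w P →
  (∃ i, X i ∉ P) → (∀ x : ι → κ, x ≠ 0 → ∃ h ∈ P, eval x h ≠ 0) →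
  ∃ g : Polynomial κ, Irreducible g ∧ g.natDegree ≠ 1 ∧ ∃ (d : ℕ) (u v : MvPolynomial ι κ),
    IsWeightedHomogeneous w u d ∧ IsWeightedHomogeneous w v d ∧ v ∉ P ∧
    ∑ k ∈ Finset.range (g.natDegree + 1), C (g.coeff k) * u ^ k * v ^ (g.natDegree - k) ∈ P

/-- `f` is a monic polynomial over `A`, irreducible and separable over the fraction field `E`,
and its root field contains no constants except `κ`. -/
structure Hyp (κ A E : Type) [Field κ] [CommRing A] [Field E] [Algebra A E] [Algebra κ E]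
    (f : Polynomial A) : Prop where
  monic : f.Monic
  irr : Irreducible (f.map (algebraMap A E))
  sep : (f.map (algebraMap A E)).Separable
  con : ∀ z : AdjoinRoot (f.map (algebraMap A E)), IsAlgebraic κ z →
    z ∈ (algebraMap κ (AdjoinRoot (f.map (algebraMap A E)))).range

/-- PRIM: reduction to hypersurfaces -/
def S_PRIM : Prop := ∀ (κ : Type) [Field κ] [PerfectField κ] (ι : Type) [Finite ι]
  (P : Ideal (MvPolynomial ι κ)) [P.IsPrime] (g : MvPolynomial ι κ), g ∉ P →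
  (∀ z : FractionRing (MvPolynomial ι κ ⧸ P), IsAlgebraic κ z →
    z ∈ (algebraMap κ (FractionRing (MvPolynomial ι κ ⧸ P))).range) →
  ∃ (r : ℕ) (f : Polynomial (MvPolynomial (Fin r) κ)) (D : MvPolynomial (Fin r) κ),
    Hyp κ (MvPolynomial (Fin r) κ) (FractionRing (MvPolynomial (Fin r) κ)) f ∧ D ≠ 0 ∧
    ∀ (c : Fin r → κ) (y : κ), eval c (f.eval (C y)) = 0 → eval c D ≠ 0 →
      ∃ x : ι → κ, (∀ h ∈ P, eval x h = 0) ∧ eval x g ≠ 0

/-- LINE: restriction to a line -/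
def S_LINE : Prop := ∀ (κ : Type) [Field κ] [PerfectField κ] [Infinite κ] (r : ℕ), 0 < r →
  ∀ (f : Polynomial (MvPolynomial (Fin r) κ)) (D : MvPolynomial (Fin r) κ),
    Hyp κ (MvPolynomial (Fin r) κ) (FractionRing (MvPolynomial (Fin r) κ)) f → D ≠ 0 →
  ∃ φ : MvPolynomial (Fin r) κ →ₐ[κ] Polynomial κ, φ D ≠ 0 ∧
    Hyp κ (Polynomial κ) (RatFunc κ) (f.map (φ : MvPolynomial (Fin r) κ →+* Polynomial κ))

/-- ABS: irreducibility over the algebraic closure -/
def S_ABS : Prop := ∀ (κ k : Type) [Field κ] [PerfectField κ] [Field k] [Algebra κ k]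
  [IsAlgClosed k] [Algebra.IsAlgebraic κ k] (f : Polynomial (Polynomial κ)),
    Hyp κ (Polynomial κ) (RatFunc κ) f →
    Irreducible ((f.map (Polynomial.mapRingHom (algebraMap κ k))).map
      (algebraMap (Polynomial k) (RatFunc k))) ∧
    ((f.map (Polynomial.mapRingHom (algebraMap κ k))).map
      (algebraMap (Polynomial k) (RatFunc k))).Separable

/-- PCT: absolutely irreducible plane curves over the field with `q = p ^ e` elements have points
over all sufficiently large extensions -/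
def S_PCT : Prop := ∀ (k : Type) [Field k] [IsAlgClosed k] (p e : ℕ) [Fact p.Prime] [CharP k p],
  0 < e → ∀ (f : Polynomial (Polynomial k)) (D : Polynomial k), f.Monic →
    (∀ i j, ((f.coeff i).coeff j) ^ p ^ e = (f.coeff i).coeff j) → D ≠ 0 →
    Irreducible (f.map (algebraMap (Polynomial k) (RatFunc k))) →
    (f.map (algebraMap (Polynomial k) (RatFunc k))).Separable →
  ∃ N : ℕ, ∀ n, N ≤ n → ∃ c y : k, c ^ (p ^ e) ^ n = c ∧ y ^ (p ^ e) ^ n = y ∧
    (f.eval (Polynomial.C y)).eval c = 0 ∧ D.eval c ≠ 0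

/-- PACF: infinite algebraic extensions of finite fields are pseudo algebraically closed -/
def S_PACF : Prop := ∀ (p : ℕ) [Fact p.Prime] (κ : Type) [Field κ] [CharP κ p] [Infinite κ],
  (∀ x : κ, ∃ e : ℕ, 0 < e ∧ x ^ p ^ e = x) → PAC κ

/-- A: the theorem of Chevalley at the prime `ℓ` -/
def S_A : Prop := ∀ (ℓ : ℕ) [Fact ℓ.Prime] (κ : Type) [Field κ], PAC κ →
  (∀ g : Polynomial κ, Irreducible g → g.natDegree ≠ 1 → ℓ ∣ g.natDegree) →
  Tsen (fun d => ℓ ^ d.factorization ℓ) κ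

/-- CST: constant extensions of global function fields -/
def S_CST : Prop := ∀ (φ : ℕ → ℕ) (ℓ : ℕ) [Fact ℓ.Prime] (F : Type) [Field F] [Finite F],
  (∀ (κ : Type) [Field κ] [Algebra F κ], Algebra.IsAlgebraic F κ →
    (∀ g : Polynomial κ, Irreducible g → g.natDegree ≠ 1 → ℓ ∣ g.natDegree) → Tsen φ κ) →
  ∀ (k : Type) [Field k] [Algebra (RatFunc F) k] [FiniteDimensional (RatFunc F) k]
    (ι κ : Type) [Fintype ι] [Fintype κ] (w : ι → ℕ) (e : κ → ℕ) (f : κ → MvPolynomial ι k),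
    (∀ i, 0 < w i) → (∀ j, 0 < e j) → (∀ j, IsWeightedHomogeneous w (f j) (e j)) →
    ∑ j, e j * φ (e j) < ∑ i, w i * φ (w i) →
    ∃ (L : Type) (_ : Field L) (_ : Algebra k L), FiniteDimensional k L ∧
      ¬ ℓ ∣ Module.finrank k L ∧ ∃ x : ι → L, x ≠ 0 ∧ ∀ j, aeval x (f j) = 0

end Pool.Agent.Q49.TL
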