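import Pool.Agent.Q49.TL.Alg

set_option autoImplicit false

/-!
# Project TL: the theorem of Chevalley at the prime `ℓ`
-/

namespace Pool.Agent.Q49.TL

open MvPolynomial

theorem chev (hT : S_TOP) (hF : S_FLD) (hN : S_NOE) (hD : S_DESC) (hO : S_ORD) (hP : S_PT) :
    S_A := by
  intro ℓ _ κ _ hpac hℓ ι κ' _ _ w e f hw he hf hlt
  by_contra hcon
  push Not at hcon
  have h1 : ∀ x : ι → κ, x ≠ 0 → ∃ j, eval x (f j) ≠ 0 := hcon
  let I : Ideal (MvPolynomial ι κ) := Ideal.span (Set.range f)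
  have h2 := hN ℓ κ ι w hw I (by
    intro P hprime hgr hIP
    by_cases hx : ∀ i, X i ∈ P
    · exact Or.inl hx
    push Not at hx
    right
    obtain ⟨g, hg, hg1, d, u, v, hu, hv, hvP, hsum⟩ := hP κ hpac ι w hw P hprime hgr hx (by
      intro x hx0
      obtain ⟨j, hj⟩ := h1 x hx0
      exact ⟨f j, hIP (Ideal.subset_span ⟨j, rfl⟩), hj⟩)
    exact hF ℓ κ ι w hw P hprime hgr g hg hg1 (hℓ g hg hg1) d u v hu hv hvP hsum)
  obtain ⟨q, hq⟩ := hD ℓ κ ι w hw κ' e f hf (by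
    intro J hJ hfJ
    exact h2 J hJ (Ideal.span_le.2 (by rintro _ ⟨j, rfl⟩; exact hfJ j)))
  have h3 := hT ℓ κ ι w hw
  have h4 : ∏ j, (1 - (Polynomial.X : Polynomial (ZMod ℓ)) ^ e j) =
      q * ∏ i, (1 - (Polynomial.X : Polynomial (ZMod ℓ)) ^ w i) := by
    apply Polynomial.coe_injective
    have h5 : ((∏ j, (1 - (Polynomial.X : Polynomial (ZMod ℓ)) ^ e j) : Polynomial (ZMod ℓ)) :
        PowerSeries (ZMod ℓ)) = ∏ j, (1 - PowerSeries.X ^ e j) := by
      rw [← Polynomial.coeToPowerSeries.ringHom_apply, map_prod]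
      refine Finset.prod_congr rfl fun j _ => ?_
      rw [map_sub, map_one, map_pow]
      simp
    have h6 : ((∏ i, (1 - (Polynomial.X : Polynomial (ZMod ℓ)) ^ w i) : Polynomial (ZMod ℓ)) :
        PowerSeries (ZMod ℓ)) = ∏ i, (1 - PowerSeries.X ^ w i) := by
      rw [← Polynomial.coeToPowerSeries.ringHom_apply, map_prod]
      refine Finset.prod_congr rfl fun j _ => ?_
      rw [map_sub, map_one, map_pow]
      simp
    rw [h5, Polynomial.coe_mul, h6, ← hq, mul_assoc, h3, mul_one]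
  exact absurd (hO ℓ ι κ' w e hw he q h4) (not_le.2 hlt)

end Pool.Agent.Q49.TL
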