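import Pool.Agent.Q49.TL.Alg
import Pool.Agent.Q177.TL.Cw
import Pool.Agent.Q146.TL.Tr

set_option autoImplicit false

/-!
# Project TL: diagonal forms modulo `p` over a discrete valuation ring
-/

namespace Pool.Agent.Q49.TL.Dq

theorem tsen_poly (k : Type) [Field k] [Finite k] (d N : ℕ) (hd : 0 < d) (hN : d * d < N)
    (W : Fin N → Polynomial k) :
    ∃ z : Fin N → Polynomial k, (∃ i, (z i).coeff 0 ≠ 0) ∧ ∑ i, W i * z i ^ d = 0 := by
  classical
  -- a nontrivial solution in the field of rational functions
  obtain ⟨x, hx0, hx⟩ : ∃ x : Fin N → RatFunc k, x ≠ 0 ∧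
      ∑ i, algebraMap (Polynomial k) (RatFunc k) (W i) * x i ^ d = 0 := by
    obtain ⟨x, hx0, hx⟩ := Pool.Agent.Q146.TL.Tr.tr (fun d => d) k (Pool.Agent.Q177.TL.Cw.cw k)
      (Fin N) Unit (fun _ => 1) (fun _ => d)
      (fun _ => ∑ i, MvPolynomial.C (algebraMap (Polynomial k) (RatFunc k) (W i)) *
        MvPolynomial.X i ^ d) (fun _ => one_pos) (fun _ => hd) (fun _ => by
          refine MvPolynomial.IsWeightedHomogeneous.sum _ _ _ fun i _ => ?_
          refine MvPolynomial.IsWeightedHomogeneous.C_mul ?_ _
          have h1 := (MvPolynomial.isWeightedHomogeneous_X (RatFunc k) (fun _ : Fin N => 1) i).pow d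
          simpa using h1) (by simpa using hN)
    refine ⟨x, hx0, ?_⟩
    have := hx ()
    simpa using this
  -- a nontrivial solution in polynomials
  obtain ⟨y, hy0, hy⟩ : ∃ y : Fin N → Polynomial k, y ≠ 0 ∧ ∑ i, W i * y i ^ d = 0 := by
    obtain ⟨b, hb⟩ := IsLocalization.exist_integer_multiples_of_finite
      (nonZeroDivisors (Polynomial k)) x
    choose y hy using hb
    have hb0 : algebraMap (Polynomial k) (RatFunc k) b ≠ 0 := by
      rw [Ne, FaithfulSMul.algebraMap_eq_zero_iff]
      exact nonZeroDivisors.coe_ne_zero b
    have hy' : ∀ i, algebraMap (Polynomial k) (RatFunc k) (y i) =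
        algebraMap (Polynomial k) (RatFunc k) b * x i := by
      intro i
      rw [hy i]
      exact Algebra.smul_def _ _
    refine ⟨y, ?_, ?_⟩
    · intro h0
      apply hx0
      funext i
      have := hy' i
      rw [h0, Pi.zero_apply, map_zero, eq_comm, mul_eq_zero] at this
      exact this.resolve_left hb0
    · apply FaithfulSMul.algebraMap_injective (Polynomial k) (RatFunc k)
      rw [map_sum, map_zero]
      have : ∀ i, algebraMap (Polynomial k) (RatFunc k) (W i * y i ^ d) =
          algebraMap (Polynomial k) (RatFunc k) b ^ d *
            (algebraMap (Polynomial k) (RatFunc k) (W i) * x i ^ d) := by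
        intro i
        rw [map_mul, map_pow, hy' i]
        ring
      simp only [this]
      rw [← Finset.mul_sum, hx, mul_zero]
  -- a solution which is primitive at `0`
  have key : ∀ n : ℕ, ∀ y : Fin N → Polynomial k, y ≠ 0 → (∀ i, (y i).natDegree < n) →
      ∑ i, W i * y i ^ d = 0 →
      ∃ z : Fin N → Polynomial k, (∃ i, (z i).coeff 0 ≠ 0) ∧ ∑ i, W i * z i ^ d = 0 := by
    intro n
    induction n with
    | zero =>
      intro y hy0 hn _
      exfalso
      have : 0 < N := lt_of_le_of_lt (Nat.zero_le _) hN
      exact Nat.not_lt_zero _ (hn ⟨0, this⟩)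
    | succ n ih =>
      intro y hy0 hn hy
      by_cases h : ∃ i, (y i).coeff 0 ≠ 0
      · exact ⟨y, h, hy⟩
      · push_neg at h
        have h1 : ∀ i, y i = Polynomial.X * (y i).divX := by
          intro i
          have := Polynomial.X_mul_divX_add (y i)
          rw [h i, Polynomial.C_0, add_zero] at this
          exact this.symm
        refine ih (fun i => (y i).divX) ?_ ?_ ?_
        · intro h0
          apply hy0
          funext i
          rw [h1 i, congrFun h0 i]
          simp
        · intro i
          by_cases h2 : (y i).natDegree = 0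
          · have h3 : (y i).divX = 0 := by
              rw [Polynomial.eq_C_of_natDegree_eq_zero h2]
              simp
            rw [h3, Polynomial.natDegree_zero]
            rcases Nat.eq_zero_or_pos n with hn0 | hn0
            · exfalso
              apply hy0
              funext j
              have h4 : (y j).natDegree = 0 := by
                have := hn j
                omega
              rw [Polynomial.eq_C_of_natDegree_eq_zero h4, h j]
              simp
            · exact hn0
          · rw [Polynomial.natDegree_divX_eq_natDegree_tsub_one]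
            have := hn i
            omega
        · have h5 : ∑ i, W i * y i ^ d = Polynomial.X ^ d * ∑ i, W i * (y i).divX ^ d := by
            rw [Finset.mul_sum]
            refine Finset.sum_congr rfl fun i _ => ?_
            conv_lhs => rw [h1 i]
            rw [mul_pow]
            ring
          rw [h5] at hy
          exact (mul_eq_zero.1 hy).resolve_left (pow_ne_zero _ Polynomial.X_ne_zero)
  exact key ((Finset.univ.sup fun i => (y i).natDegree) + 1) y hy0 (fun i =>
    Nat.lt_succ_of_le (Finset.le_sup (f := fun i => (y i).natDegree) (Finset.mem_univ i))) hy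

end Pool.Agent.Q49.TL.Dq
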