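import Pool.Agent.Q49.TL.Dqa

set_option autoImplicit false

/-!
# Project TL: diagonal forms modulo powers of `p` over a discrete valuation ring
-/

namespace Pool.Agent.Q49.TL.Dq

open IsLocalRing

section

variable (O : Type) [CommRing O] [IsDomain O] [IsDiscreteValuationRing O]
  [Finite (ResidueField O)] (p : ℕ) [hp : Fact p.Prime] [CharP (ResidueField O) p]

/-- the ring `O` modulo `p` is a quotient of the ring of polynomials over the residue field -/
theorem surj (hp0 : (p : O) ≠ 0) :
    ∃ ψ : Polynomial (ResidueField O) →+* O ⧸ Ideal.span {(p : O)},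
      Function.Surjective ψ ∧ ∀ P : Polynomial (ResidueField O), P.coeff 0 ≠ 0 →
        IsUnit (ψ P) := by
  classical
  set R := O ⧸ Ideal.span {(p : O)} with hR
  let mk : O →+* R := Ideal.Quotient.mk _
  have hmk : Function.Surjective mk := Ideal.Quotient.mk_surjective
  have hpm : (p : O) ∈ maximalIdeal O := by
    rw [← residue_eq_zero_iff, map_natCast, CharP.cast_eq_zero]
  have hpu : ¬ IsUnit (p : O) := hpm
  haveI : Nontrivial R := Ideal.Quotient.nontrivial_iff.2 (by
    rw [Ne, Ideal.span_singleton_eq_top]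
    exact hpu)
  have hpR : (p : R) = 0 := by
    have : mk (p : O) = 0 := Ideal.Quotient.eq_zero_iff_mem.2 (Ideal.mem_span_singleton_self _)
    rwa [map_natCast] at this
  haveI : CharP R p := by
    have h1 : ringChar R ∣ p := ringChar.dvd hpR
    rcases (Nat.dvd_prime hp.out).1 h1 with h | h
    · exact absurd h (CharP.ringChar_ne_one)
    · exact ringChar.of_eq h
  haveI : ExpChar R p := ExpChar.prime hp.out
  obtain ⟨π, hπ⟩ := IsDiscreteValuationRing.exists_irreducible O
  have hmax : maximalIdeal O = Ideal.span {π} := hπ.maximalIdeal_eq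
  obtain ⟨e, he⟩ := IsDiscreteValuationRing.associated_pow_irreducible hp0 hπ
  have hπe : mk π ^ e = 0 := by
    rw [← map_pow]
    exact Ideal.Quotient.eq_zero_iff_mem.2 (Ideal.mem_span_singleton.2 he.dvd)
  obtain ⟨n0, hn0, hn1⟩ : ∃ n0 : ℕ, e ≤ p ^ n0 ∧ ∀ a : ResidueField O, a ^ p ^ n0 = a := by
    haveI : Fintype (ResidueField O) := Fintype.ofFinite _
    obtain ⟨f, hf0, hf⟩ := FiniteField.card (ResidueField O) p
    refine ⟨f * e, ?_, ?_⟩
    · calc e ≤ p ^ e := (Nat.lt_pow_self hp.out.one_lt).le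
        _ ≤ p ^ ((f : ℕ) * e) := Nat.pow_le_pow_right hp.out.pos
          (Nat.le_mul_of_pos_left _ f.pos)
    · intro a
      rw [pow_mul, ← hf]
      exact FiniteField.pow_card_pow e a
  have hker : ∀ a ∈ maximalIdeal O, ((iterateFrobenius R p n0).comp mk) a = 0 := by
    intro a ha
    rw [hmax, Ideal.mem_span_singleton] at ha
    obtain ⟨b, rfl⟩ := ha
    rw [RingHom.comp_apply, iterateFrobenius_def, map_mul, mul_pow]
    have : mk π ^ p ^ n0 = 0 := by
      obtain ⟨c, hc⟩ := Nat.exists_eq_add_of_le hn0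
      rw [hc, pow_add, hπe, zero_mul]
    rw [this, zero_mul]
  let σ : ResidueField O →+* R := Ideal.Quotient.lift (maximalIdeal O) _ hker
  have hσ : ∀ a : O, σ (residue O a) = mk a ^ p ^ n0 := by
    intro a
    have h1 : σ (residue O a) = ((iterateFrobenius R p n0).comp mk) a :=
      Ideal.Quotient.lift_mk _ _ _
    rw [h1, RingHom.comp_apply, iterateFrobenius_def]
  have hstep : ∀ a : O, ∃ b : O, mk a = σ (residue O a) + mk π * mk b := by
    intro a
    have h1 : a - a ^ p ^ n0 ∈ maximalIdeal O := by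
      rw [← residue_eq_zero_iff, map_sub, map_pow, hn1, sub_self]
    rw [hmax, Ideal.mem_span_singleton] at h1
    obtain ⟨b, hb⟩ := h1
    refine ⟨b, ?_⟩
    rw [hσ, ← map_mul, ← hb, map_sub, map_pow]
    ring
  let ψ : Polynomial (ResidueField O) →+* R := Polynomial.eval₂RingHom σ (mk π)
  have hψC : ∀ c, ψ (Polynomial.C c) = σ c := fun c => Polynomial.eval₂_C _ _
  have hψX : ψ Polynomial.X = mk π := Polynomial.eval₂_X _ _
  refine ⟨ψ, ?_, ?_⟩
  · have key : ∀ j : ℕ, ∀ a : O, ∃ (P : Polynomial (ResidueField O)) (b : O),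
        mk a = ψ P + mk π ^ j * mk b := by
      intro j
      induction j with
      | zero =>
        intro a
        exact ⟨0, a, by rw [map_zero, pow_zero, zero_add, one_mul]⟩
      | succ j ih =>
        intro a
        obtain ⟨P, b, hb⟩ := ih a
        obtain ⟨b', hb'⟩ := hstep b
        refine ⟨P + Polynomial.C (residue O b) * Polynomial.X ^ j, b', ?_⟩
        rw [hb, map_add, map_mul, map_pow, hψC, hψX]
        conv_lhs => rw [hb']
        ring
    intro r
    obtain ⟨a, rfl⟩ := hmk r
    obtain ⟨P, b, hb⟩ := key e a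
    refine ⟨P, ?_⟩
    rw [hb, hπe, zero_mul, add_zero]
  · intro P hP
    have h1 : P = Polynomial.X * P.divX + Polynomial.C (P.coeff 0) :=
      (Polynomial.X_mul_divX_add P).symm
    rw [h1, map_add, map_mul, hψX, hψC]
    have h2 : IsUnit (σ (P.coeff 0)) := (isUnit_iff_ne_zero.2 hP).map σ
    have h3 : IsNilpotent (mk π * ψ P.divX) := ⟨e, by rw [mul_pow, hπe, zero_mul]⟩
    rw [add_comm]
    exact IsNilpotent.isUnit_add_left_of_commute h3 h2 (Commute.all _ _)

/-- contraction -/
theorem contr (hp0 : (p : O) ≠ 0) (d N : ℕ) (hd : 0 < d) (hN : d * d < N) (w : Fin N → O) :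
    ∃ z : Fin N → O, (∃ i, IsUnit (z i)) ∧ (p : O) ∣ ∑ i, w i * z i ^ d := by
  classical
  obtain ⟨ψ, hψ, hψu⟩ := surj O p hp0
  let mk : O →+* O ⧸ Ideal.span {(p : O)} := Ideal.Quotient.mk _
  have hmk : Function.Surjective mk := Ideal.Quotient.mk_surjective
  have hpu : ¬ IsUnit (p : O) := by
    have hpm : (p : O) ∈ maximalIdeal O := by
      rw [← residue_eq_zero_iff, map_natCast, CharP.cast_eq_zero]
    exact hpm
  haveI : Nontrivial (O ⧸ Ideal.span {(p : O)}) := Ideal.Quotient.nontrivial_iff.2 (by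
    rw [Ne, Ideal.span_singleton_eq_top]
    exact hpu)
  choose W hW using fun i => hψ (mk (w i))
  obtain ⟨z, ⟨i0, hi0⟩, hz⟩ := tsen_poly (ResidueField O) d N hd hN W
  choose y hy using fun i => hmk (ψ (z i))
  refine ⟨y, ⟨i0, ?_⟩, ?_⟩
  · have h1 : IsUnit (mk (y i0)) := by
      rw [hy]
      exact hψu _ hi0
    by_contra hn
    have h2 : y i0 ∈ maximalIdeal O := hn
    obtain ⟨v, hv⟩ := h1.exists_right_inv
    obtain ⟨v', rfl⟩ := hmk v
    have h3 : mk (y i0 * v' - 1) = 0 := by
      rw [map_sub, map_mul, hv, map_one, sub_self]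
    have h4 : y i0 * v' - 1 ∈ maximalIdeal O := by
      rw [Ideal.Quotient.eq_zero_iff_mem, Ideal.mem_span_singleton] at h3
      obtain ⟨c, hc⟩ := h3
      rw [hc]
      exact Ideal.mul_mem_right _ _ hpu
    have h5 : (1 : O) ∈ maximalIdeal O := by
      have := Ideal.sub_mem _ (Ideal.mul_mem_right v' _ h2) h4
      simpa using this
    exact (Ideal.ne_top_iff_one _).1 (maximalIdeal.isMaximal O).ne_top h5
  · rw [← Ideal.mem_span_singleton, ← Ideal.Quotient.eq_zero_iff_mem]
    change mk _ = 0
    rw [map_sum]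
    have : ∀ i, mk (w i * y i ^ d) = ψ (W i * z i ^ d) := by
      intro i
      rw [map_mul, map_pow, map_mul, map_pow, hW, hy]
    simp only [this]
    rw [← map_sum, hz, map_zero]

/-- contraction, several times -/
theorem iter (hp0 : (p : O) ≠ 0) (d N : ℕ) (hd : 0 < d) (hN : d * d < N) (t : ℕ) :
    ∀ (ι : Type) [Fintype ι], N ^ t ≤ Fintype.card ι → ∀ u : ι → O,
      ∃ x : ι → O, (∃ i, IsUnit (x i)) ∧ (p : O) ^ t ∣ ∑ i, u i * x i ^ d := by
  classical
  induction t with
  | zero =>
    intro ι _ hι u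
    have : Nonempty ι := by
      rw [← Fintype.card_pos_iff]
      rw [pow_zero] at hι
      omega
    exact ⟨fun _ => 1, ⟨this.some, isUnit_one⟩, by simp⟩
  | succ t ih =>
    intro ι _ hι u
    obtain ⟨e⟩ : Nonempty (Fin N × Fin (N ^ t) ↪ ι) := by
      apply Function.Embedding.nonempty_of_card_le
      rw [Fintype.card_prod, Fintype.card_fin, Fintype.card_fin]
      rwa [pow_succ, mul_comm] at hι
    choose x hxu hx using fun i => ih (Fin (N ^ t)) (by rw [Fintype.card_fin]) (fun j => u (e (i, j)))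
    choose w hw using hx
    obtain ⟨z, ⟨i0, hi0⟩, hz⟩ := contr O p hp0 d N hd hN w
    obtain ⟨j0, hj0⟩ := hxu i0
    refine ⟨Function.extend e (fun q => z q.1 * x q.1 q.2) 0, ⟨e (i0, j0), ?_⟩, ?_⟩
    · rw [e.injective.extend_apply]
      exact hi0.mul hj0
    · have h1 : ∑ k, u k * (Function.extend e (fun q => z q.1 * x q.1 q.2) 0 : ι → O) k ^ d =
          ∑ q : Fin N × Fin (N ^ t), u (e q) * (z q.1 * x q.1 q.2) ^ d := by
        have h2 : ∑ q : Fin N × Fin (N ^ t), u (e q) * (z q.1 * x q.1 q.2) ^ d =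
            ∑ k ∈ Finset.univ.map e,
              u k * (Function.extend e (fun q => z q.1 * x q.1 q.2) 0 : ι → O) k ^ d := by
          rw [Finset.sum_map]
          refine Finset.sum_congr rfl fun q _ => ?_
          rw [e.injective.extend_apply]
        rw [h2]
        symm
        refine Finset.sum_subset (Finset.subset_univ _) fun k _ hk => ?_
        rw [Function.extend_apply']
        · rw [Pi.zero_apply, zero_pow hd.ne', mul_zero]
        · rintro ⟨q, rfl⟩
          exact hk (Finset.mem_map_of_mem _ (Finset.mem_univ q))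
      rw [h1, Fintype.sum_prod_type]
      have h3 : ∀ i, ∑ j, u (e (i, j)) * (z i * x i j) ^ d = (p : O) ^ t * (w i * z i ^ d) := by
        intro i
        have h4 := hw i
        calc ∑ j, u (e (i, j)) * (z i * x i j) ^ d =
            z i ^ d * ∑ j, u (e (i, j)) * x i j ^ d := by
              rw [Finset.mul_sum]
              refine Finset.sum_congr rfl fun j _ => ?_
              ring
          _ = _ := by rw [h4]; ring
      simp only [h3]
      rw [← Finset.mul_sum, pow_succ]
      exact mul_dvd_mul_left _ hz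

end

end Pool.Agent.Q49.TL.Dq
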