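import Pool.Agent.Q49.TL.Dqb
import Pool.Agent.Q49.TL.Bra
import Pool.Agent.Q34.TL.Hen

set_option autoImplicit false

/-!
# Project TL: diagonal forms over the fraction field of a henselian discrete valuation ring
-/

namespace Pool.Agent.Q49.TL.Dq

open IsLocalRing

section

variable (O : Type) [CommRing O] [IsDomain O] [IsDiscreteValuationRing O]
  [Finite (ResidueField O)] (p : ℕ) [hp : Fact p.Prime] [CharP (ResidueField O) p]

theorem units [HenselianLocalRing O] (hp0 : (p : O) ≠ 0) (d N : ℕ) (hd : 0 < d) (hN : d * d < N)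
    (ι : Type) [Fintype ι] (hι : N ^ (2 * d + 1) ≤ Fintype.card ι) (u : ι → O)
    (hu : ∀ i, IsUnit (u i)) : ∃ x : ι → O, x ≠ 0 ∧ ∑ i, u i * x i ^ d = 0 := by
  classical
  obtain ⟨τ, m, hm, hdm⟩ := Nat.exists_eq_pow_mul_and_not_dvd hd.ne' p hp.out.ne_one
  have hτ : τ ≤ d := by
    have h1 : τ < p ^ τ := Nat.lt_pow_self hp.out.one_lt
    have h2 : p ^ τ ≤ d := Nat.le_of_dvd hd ⟨m, hdm⟩
    omega
  have hN1 : 1 ≤ N := by omega
  obtain ⟨x, ⟨i0, hi0⟩, s, hs⟩ := iter O p hp0 d N hd hN (2 * τ + 1) ι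
    ((Nat.pow_le_pow_right hN1 (by omega)).trans hι) u
  have hpm : (p : O) ∈ maximalIdeal O := by
    rw [← residue_eq_zero_iff, map_natCast, CharP.cast_eq_zero]
  have hmu : IsUnit (m : O) := by
    by_contra hn
    have h1 : (m : O) ∈ maximalIdeal O := hn
    rw [← residue_eq_zero_iff, map_natCast, CharP.cast_eq_zero_iff (ResidueField O) p] at h1
    exact hm h1
  obtain ⟨r, hr⟩ : ∃ r, r = ∑ i ∈ Finset.univ.erase i0, u i * x i ^ d := ⟨_, rfl⟩
  have hsum : ∀ t : O, ∑ i, u i * (Function.update x i0 t) i ^ d = u i0 * t ^ d + r := by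
    intro t
    rw [← Finset.add_sum_erase _ _ (Finset.mem_univ i0), Function.update_self, hr]
    congr 1
    refine Finset.sum_congr rfl fun i hi => ?_
    rw [Function.update_of_ne (Finset.ne_of_mem_erase hi)]
  let g : Polynomial O := Polynomial.C (u i0) * Polynomial.X ^ d + Polynomial.C r
  have hg1 : ∀ t : O, g.eval t = u i0 * t ^ d + r := by
    intro t
    simp [g]
  obtain ⟨v, hv⟩ : IsUnit (u i0 * (m * x i0 ^ (d - 1))) := (hu i0).mul (hmu.mul (hi0.pow _))
  have hg2 : g.derivative.eval (x i0) = (p : O) ^ τ * v := by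
    have h1 : (d : O) = (p : O) ^ τ * m := by
      rw [hdm]
      push_cast
      rfl
    rw [hv]
    simp only [g, Polynomial.derivative_add, Polynomial.derivative_C, add_zero,
      Polynomial.derivative_C_mul, Polynomial.derivative_X_pow, Polynomial.eval_mul,
      Polynomial.eval_C, Polynomial.eval_pow, Polynomial.eval_X]
    rw [h1]
    ring
  have hg3 : g.eval (x i0) = (p : O) ^ (2 * τ + 1) * s := by
    rw [hg1, ← hsum, Function.update_eq_self]
    exact hs
  set ε : O := p * (s * (v⁻¹ : Oˣ) ^ 2) with hε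
  have hεm : ε ∈ maximalIdeal O := Ideal.mul_mem_right _ _ hpm
  obtain ⟨w, hw⟩ := Q34.TL.hen O g (x i0) ε hεm (by
    rw [hg3, hg2, hε]
    have h1 : (v : O) * ((v⁻¹ : Oˣ) : O) = 1 := v.mul_inv
    have h2 : (v : O) ^ 2 * ((v⁻¹ : Oˣ) : O) ^ 2 = 1 := by
      rw [← mul_pow, h1, one_pow]
    rw [pow_succ, pow_mul']
    linear_combination (-(p : O) ^ τ ^ 1 * 0 - ((p : O) ^ τ) ^ 2 * p * s) * h2)
  refine ⟨Function.update x i0 (x i0 + g.derivative.eval (x i0) * ε * w), ?_, ?_⟩
  · intro h0
    have h1 := congrFun h0 i0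
    rw [Function.update_self, Pi.zero_apply] at h1
    have h2 : x i0 ∈ maximalIdeal O := by
      have h3 : x i0 = -(g.derivative.eval (x i0) * ε * w) := eq_neg_of_add_eq_zero_left h1
      rw [h3]
      exact neg_mem (Ideal.mul_mem_right _ _ (Ideal.mul_mem_left _ _ hεm))
    exact h2 hi0
  · rw [hsum, ← hg1]
    exact hw

end

/-- diagonal forms over the fraction field -/
theorem diag_frac (O K : Type) [CommRing O] [IsDomain O] [IsDiscreteValuationRing O]
    [Finite (ResidueField O)] (p : ℕ) [hp : Fact p.Prime] [CharP (ResidueField O) p]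
    [HenselianLocalRing O] (hp0 : (p : O) ≠ 0) [Field K] [Algebra O K] [IsFractionRing O K] :
    Diag (fun d => d * (d * d + 1) ^ (2 * d + 1) + 1) K := by
  classical
  intro d hd s hs a
  by_cases h0 : ∃ i, a i = 0
  · obtain ⟨i, hi⟩ := h0
    refine ⟨Pi.single i 1, ?_, ?_⟩
    · intro h
      have := congrFun h i
      rw [Pi.single_eq_same, Pi.zero_apply] at this
      exact one_ne_zero this
    · refine Finset.sum_eq_zero fun j _ => ?_
      by_cases hj : j = i
      · rw [hj, hi, zero_mul]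
      · rw [Pi.single_eq_of_ne hj, zero_pow hd.ne', mul_zero]
  push Not at h0
  obtain ⟨π, hπ⟩ := IsDiscreteValuationRing.exists_irreducible O
  have hinj : Function.Injective (algebraMap O K) := IsFractionRing.injective O K
  have hπ0 : algebraMap O K π ≠ 0 := by
    rw [Ne, map_eq_zero_iff _ hinj]
    exact hπ.ne_zero
  have hnorm : ∀ i, ∃ (r : Fin d) (u : O) (y : K), IsUnit u ∧ y ≠ 0 ∧
      a i * y ^ d = algebraMap O K π ^ (r : ℕ) * algebraMap O K u := by
    intro i
    obtain ⟨A, B, hB, hAB⟩ := IsFractionRing.div_surjective (A := O) (a i)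
    have hB0 : B ≠ 0 := nonZeroDivisors.ne_zero hB
    have hB0' : algebraMap O K B ≠ 0 := by
      rwa [Ne, map_eq_zero_iff _ hinj]
    have hA0 : A ≠ 0 := by
      rintro rfl
      rw [map_zero, zero_div] at hAB
      exact h0 i hAB.symm
    obtain ⟨n, v, hv⟩ := IsDiscreteValuationRing.associated_pow_irreducible
      (mul_ne_zero hA0 (pow_ne_zero (d - 1) hB0)) hπ
    -- `A * B ^ (d - 1) * v = π ^ n`
    refine ⟨⟨n % d, Nat.mod_lt _ hd⟩, ((v⁻¹ : Oˣ) : O),
      algebraMap O K B / algebraMap O K π ^ (n / d), v⁻¹.isUnit, div_ne_zero hB0'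
        (pow_ne_zero _ hπ0), ?_⟩
    have h1 : A * B ^ (d - 1) = π ^ n * ((v⁻¹ : Oˣ) : O) := by
      rw [← hv, mul_assoc, v.mul_inv, mul_one]
    have h2 : algebraMap O K A * algebraMap O K B ^ (d - 1) =
        algebraMap O K π ^ n * algebraMap O K ((v⁻¹ : Oˣ) : O) := by
      rw [← map_pow, ← map_mul, h1, map_mul, map_pow]
    have h3 : algebraMap O K B ^ d = algebraMap O K B ^ (d - 1) * algebraMap O K B := by
      rw [← pow_succ, Nat.sub_add_cancel hd]
    have h4 : (algebraMap O K π ^ (n / d)) ^ d * algebraMap O K π ^ (n % d) =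
        algebraMap O K π ^ n := by
      rw [← pow_mul, ← pow_add, mul_comm (n / d) d, Nat.div_add_mod]
    have h5 : (algebraMap O K π ^ (n / d)) ^ d ≠ 0 := pow_ne_zero _ (pow_ne_zero _ hπ0)
    show a i * (algebraMap O K B / algebraMap O K π ^ (n / d)) ^ d = _
    rw [← hAB, div_pow, h3]
    have h6 : algebraMap O K A / algebraMap O K B *
        (algebraMap O K B ^ (d - 1) * algebraMap O K B / (algebraMap O K π ^ (n / d)) ^ d) =
        (algebraMap O K A * algebraMap O K B ^ (d - 1)) / (algebraMap O K π ^ (n / d)) ^ d := by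
      field_simp
    rw [h6, h2, ← h4]
    field_simp
  choose r u y hu hy hay using hnorm
  haveI : Nonempty (Fin d) := ⟨⟨0, hd⟩⟩
  obtain ⟨c, hc⟩ := Fintype.exists_le_card_fiber_of_mul_le_card (α := Fin s) (β := Fin d) r
    (n := (d * d + 1) ^ (2 * d + 1)) (by
      rw [Fintype.card_fin, Fintype.card_fin]
      have := hs
      simp only at this
      omega)
  obtain ⟨x, hx0, hx⟩ := units O p hp0 d (d * d + 1) hd (Nat.lt_succ_self _)
    {i // r i = c} (by
      rw [Fintype.card_subtype]
      exact hc) (fun i => u i) (fun i => hu i)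
  refine ⟨fun i => if h : r i = c then y i * algebraMap O K (x ⟨i, h⟩) else 0, ?_, ?_⟩
  · intro h
    apply hx0
    funext j
    have h1 := congrFun h j.1
    simp only [dif_pos j.2, Pi.zero_apply] at h1
    have h2 := (mul_eq_zero.1 h1).resolve_left (hy _)
    exact (map_eq_zero_iff _ hinj).1 h2
  · have h1 : ∀ i, a i * (if h : r i = c then y i * algebraMap O K (x ⟨i, h⟩) else 0) ^ d =
        if h : r i = c then algebraMap O K π ^ (c : ℕ) *
          algebraMap O K (u i * x ⟨i, h⟩ ^ d) else 0 := by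
      intro i
      by_cases h : r i = c
      · rw [dif_pos h, dif_pos h, mul_pow, ← mul_assoc, hay, h, map_mul, map_pow, mul_assoc]
      · rw [dif_neg h, dif_neg h, zero_pow hd.ne', mul_zero]
    simp only [h1]
    have h2 : ∑ i, (if h : r i = c then algebraMap O K π ^ (c : ℕ) *
          algebraMap O K (u i * x ⟨i, h⟩ ^ d) else 0) =
        ∑ j : {i // r i = c}, algebraMap O K π ^ (c : ℕ) * algebraMap O K (u j * x j ^ d) := by
      have h3 : ∑ i, (if h : r i = c then algebraMap O K π ^ (c : ℕ) *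
          algebraMap O K (u i * x ⟨i, h⟩ ^ d) else 0) =
          ∑ i ∈ Finset.univ.filter (fun i => r i = c), (if h : r i = c then
            algebraMap O K π ^ (c : ℕ) * algebraMap O K (u i * x ⟨i, h⟩ ^ d) else 0) := by
        symm
        refine Finset.sum_filter_of_ne fun i _ hi => ?_
        by_contra hn
        exact hi (dif_neg hn)
      rw [h3, Finset.sum_subtype (Finset.univ.filter fun i => r i = c) (p := fun i => r i = c)
        (by simp)]
      exact Finset.sum_congr rfl fun j _ => dif_pos j.2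
    rw [h2, ← Finset.mul_sum, ← map_sum, hx, map_zero, mul_zero]

end Pool.Agent.Q49.TL.Dq
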