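import Pool.Agent.Q49.TL.Dqc

set_option autoImplicit false

/-!
# Project TL: diagonal forms over all `p`-adic fields, uniformly
-/

namespace Pool.Agent.Q49.TL.Dq

open IsLocalRing
open scoped NormedField Valued

theorem compact_int (K : Type) [NontriviallyNormedField K] [IsUltrametricDist K] [ProperSpace K] :
    CompactSpace 𝒪[K] := by
  apply isCompact_iff_compactSpace.mp
  have : ((𝒪[K] : Subring K) : Set K) = Metric.closedBall 0 1 := by
    ext x
    rw [SetLike.mem_coe, Valued.integer.mem_iff, mem_closedBall_zero_iff]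
  change IsCompact ((𝒪[K] : Subring K) : Set K)
  rw [this]
  exact isCompact_closedBall _ _

theorem facts (K : Type) [NontriviallyNormedField K] [IsUltrametricDist K] [ProperSpace K] :
    IsDiscreteValuationRing 𝒪[K] ∧ Finite (ResidueField 𝒪[K]) := by
  have hc := compact_int K
  letI : (Valued.v : Valuation K NNReal).RankOne :=
    inferInstanceAs (NormedField.valuation (K := K)).RankOne
  exact (Valued.integer.compactSpace_iff_completeSpace_and_isDiscreteValuationRing_and_finite_residueField.mp
    hc).2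

theorem hensel (K : Type) [NontriviallyNormedField K] [IsUltrametricDist K] [ProperSpace K]
    [IsDiscreteValuationRing 𝒪[K]] : HenselianLocalRing 𝒪[K] := by
  haveI := compact_int K
  obtain ⟨π, hπ⟩ := IsDiscreteValuationRing.exists_irreducible 𝒪[K]
  have hball : ∀ (n : ℕ) (x : 𝒪[K]), x ∈ maximalIdeal 𝒪[K] ^ n ↔ ‖x‖ ≤ ‖π‖ ^ n := by
    intro n x
    have h1 := hπ.maximalIdeal_pow_eq_closedBall_pow n
    rw [← SetLike.mem_coe]
    erw [h1]
    exact mem_closedBall_zero_iff
  haveI : IsPrecomplete (maximalIdeal 𝒪[K]) 𝒪[K] := by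
    refine ⟨fun f hf => ?_⟩
    obtain ⟨L, -, φ, hφ, hL⟩ := isCompact_univ.tendsto_subseq (x := f) (fun n => Set.mem_univ _)
    refine ⟨L, fun n => ?_⟩
    rw [SModEq.sub_mem, smul_eq_mul, Ideal.mul_top, hball]
    have h1 : Filter.Tendsto (fun k => ‖f n - f (φ k)‖) Filter.atTop (nhds ‖f n - L‖) :=
      (tendsto_const_nhds.sub hL).norm
    refine le_of_tendsto h1 ?_
    filter_upwards [Filter.eventually_ge_atTop n] with k hk
    have h2 := hf (hk.trans (hφ.id_le k))
    rw [SModEq.sub_mem, smul_eq_mul, Ideal.mul_top, hball] at h2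
    exact h2
  haveI : IsAdicComplete (maximalIdeal 𝒪[K]) 𝒪[K] := {}
  have h3 : HenselianRing 𝒪[K] (maximalIdeal 𝒪[K]) := inferInstance
  exact { is_henselian := fun f hf a₀ h1 h2 => h3.is_henselian f hf a₀ h1 (h2.map _) }

theorem diag_local (K : Type) [NontriviallyNormedField K] [IsUltrametricDist K] [ProperSpace K]
    [CharZero K] (p : ℕ) [Fact p.Prime] (hp : ‖(p : K)‖ < 1) :
    Diag (fun d => d * (d * d + 1) ^ (2 * d + 1) + 1) K := by
  obtain ⟨h1, h2⟩ := facts K
  haveI := hensel K
  haveI : CharP (ResidueField 𝒪[K]) p := by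
    have h3 : ((p : ℕ) : ResidueField 𝒪[K]) = 0 := by
      rw [← map_natCast (residue 𝒪[K]), residue_eq_zero_iff]
      have h4 : ¬ IsUnit ((p : ℕ) : 𝒪[K]) := by
        rw [Valued.integer.isUnit_iff_norm_eq_one]
        exact hp.ne
      exact h4
    have h5 : ringChar (ResidueField 𝒪[K]) ∣ p := ringChar.dvd h3
    rcases (Nat.dvd_prime (Fact.out : p.Prime)).1 h5 with h | h
    · exact absurd h CharP.ringChar_ne_one
    · exact ringChar.of_eq h
  haveI : IsFractionRing 𝒪[K] K := (Valuation.integer.integers _).isFractionRing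
  refine diag_frac 𝒪[K] K p ?_
  intro h
  have := congrArg (algebraMap 𝒪[K] K) h
  rw [map_natCast, map_zero] at this
  exact (Nat.cast_ne_zero.2 (Fact.out : p.Prime).ne_zero) this

/-- diagonal forms over all finite extensions of all fields of `p`-adic numbers -/
theorem dqk (p : ℕ) [Fact p.Prime] (K : Type) [Field K] [Algebra ℚ_[p] K]
    [FiniteDimensional ℚ_[p] K] : Diag (fun d => d * (d * d + 1) ^ (2 * d + 1) + 1) K := by
  letI : NontriviallyNormedField K := spectralNorm.nontriviallyNormedField ℚ_[p] K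
  letI : NormedAlgebra ℚ_[p] K := spectralNorm.normedAlgebra ℚ_[p] K
  haveI : IsUltrametricDist K :=
    IsUltrametricDist.isUltrametricDist_of_isNonarchimedean_norm
      (isNonarchimedean_spectralNorm (K := ℚ_[p]) (L := K))
  haveI : ProperSpace K := FiniteDimensional.proper ℚ_[p] K
  haveI : CharZero K := charZero_of_injective_algebraMap (algebraMap ℚ_[p] K).injective
  refine diag_local K p ?_
  have h1 : ((p : ℕ) : K) = algebraMap ℚ_[p] K p := (map_natCast _ _).symm
  rw [h1]
  have h2 : ‖algebraMap ℚ_[p] K p‖ = ‖(p : ℚ_[p])‖ := norm_algebraMap' K _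
  rw [h2]
  exact Padic.norm_p_lt_one

end Pool.Agent.Q49.TL.Dq
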