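import Pool.Agent.Q49.TL.Pad

set_option autoImplicit false

/-!
# Project TL: the approximation theorem of Greenberg for a family of extensions
-/

namespace Pool.Agent.Q49.TL

open MvPolynomial

section dvr

variable {B : Type} [CommRing B] [IsDomain B] [IsDiscreteValuationRing B] {ϖ : B}
  (hϖ : Irreducible ϖ)

include hϖ

theorem dvr_pow_dvd (u : Bˣ) (m n : ℕ) : ϖ ^ m ∣ (u : B) * ϖ ^ n ↔ m ≤ n := by
  rw [Units.dvd_mul_left]
  exact pow_dvd_pow_iff hϖ.ne_zero hϖ.not_isUnit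

theorem dvr_dvd_pow {x : B} {m : ℕ} (hx : ¬ ϖ ^ m ∣ x) : ∃ x' : B, x * x' = ϖ ^ m := by
  have h0 : x ≠ 0 := by
    rintro rfl
    exact hx (dvd_zero _)
  obtain ⟨n, u, hu⟩ := IsDiscreteValuationRing.eq_unit_mul_pow_irreducible h0 hϖ
  rw [hu, dvr_pow_dvd hϖ, not_le] at hx
  refine ⟨(↑u⁻¹ : B) * ϖ ^ (m - n), ?_⟩
  calc x * ((↑u⁻¹ : B) * ϖ ^ (m - n)) = ((u : B) * (↑u⁻¹ : B)) * (ϖ ^ n * ϖ ^ (m - n)) := by
        rw [hu]; ring
    _ = ϖ ^ m := by rw [Units.mul_inv, one_mul, ← pow_add, Nat.add_sub_cancel' hx.le]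

theorem dvr_mul {x y : B} {m n : ℕ} (hx : ¬ ϖ ^ m ∣ x) (hy : ¬ ϖ ^ n ∣ y) :
    ¬ ϖ ^ (m + n) ∣ x * y := by
  have h0 : x ≠ 0 := by
    rintro rfl
    exact hx (dvd_zero _)
  have h0' : y ≠ 0 := by
    rintro rfl
    exact hy (dvd_zero _)
  obtain ⟨i, u, hu⟩ := IsDiscreteValuationRing.eq_unit_mul_pow_irreducible h0 hϖ
  obtain ⟨j, v, hv⟩ := IsDiscreteValuationRing.eq_unit_mul_pow_irreducible h0' hϖ
  rw [hu, dvr_pow_dvd hϖ, not_le] at hx
  rw [hv, dvr_pow_dvd hϖ, not_le] at hy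
  have h1 : x * y = ((u * v : Bˣ) : B) * ϖ ^ (i + j) := by
    rw [hu, hv, Units.val_mul, pow_add]
    ring
  rw [h1, dvr_pow_dvd hϖ, not_le]
  omega

end dvr

theorem hmg_eval {ι A R B : Type} [CommRing A] [CommRing R] [Algebra A R] [CommRing B]
    [Algebra A B] (T : R →+* B) (hT : ∀ a : A, T (algebraMap A R a) = algebraMap A B a) (N : ℕ)
    (P : ι → R) (Q : R) (f : MvPolynomial ι A) (hN : f.totalDegree ≤ N) (y : ι → B)
    (hy : ∀ i, T (P i) = T Q * y i) : T (hmg N P Q f) = T Q ^ N * aeval y f := by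
  rw [hmg, map_sum, aeval_def, eval₂_eq, Finset.mul_sum]
  refine Finset.sum_congr rfl fun a ha => ?_
  rw [map_mul, map_mul, hT, map_pow, Finsupp.prod, map_prod]
  have h1 : ∏ i ∈ a.support, T (P i ^ a i) = T Q ^ a.degree * ∏ i ∈ a.support, y i ^ a i := by
    rw [Finsupp.degree_apply, ← Finset.prod_pow_eq_pow_sum, ← Finset.prod_mul_distrib]
    refine Finset.prod_congr rfl fun i _ => ?_
    rw [map_pow, hy, mul_pow]
  have h2 : a.degree ≤ N := (le_totalDegree (p := f) ha).trans hN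
  rw [h1]
  calc algebraMap A B (coeff a f) * (T Q ^ a.degree * ∏ i ∈ a.support, y i ^ a i) *
        T Q ^ (N - a.degree) = (T Q ^ a.degree * T Q ^ (N - a.degree)) *
        (algebraMap A B (coeff a f) * ∏ i ∈ a.support, y i ^ a i) := by ring
    _ = _ := by rw [← pow_add, Nat.add_sub_cancel' h2]

theorem grb (h1 : S_GEN) (h2 : S_HEN) : S_GRB := by
  intro A _ _ _ _ π hπ I B _ _ _ _ _ hB ι κ _ _ w f happ
  classical
  let App : Ideal (MvPolynomial ι A) → Prop := fun q => ∀ c : ℕ, ∃ (i : I) (x : ι → B i),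
    (∃ j, ¬ (algebraMap A (B i) π) ^ w j ∣ x j) ∧
      ∀ h ∈ q, (algebraMap A (B i) π) ^ c ∣ aeval x h
  have h0 : App (Ideal.span (Set.range f)) := by
    intro c
    obtain ⟨i, x, hx, hc⟩ := happ c
    refine ⟨i, x, hx, fun h hh => ?_⟩
    induction hh using Submodule.span_induction with
    | mem h hh =>
      obtain ⟨j, rfl⟩ := hh
      exact hc j
    | zero => rw [map_zero]; exact dvd_zero _
    | add a b _ _ ha hb => rw [map_add]; exact dvd_add ha hb
    | smul r a _ ha => rw [smul_eq_mul, map_mul]; exact Dvd.dvd.mul_left ha _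
  obtain ⟨q, ⟨hq1, hq2⟩, hqmax⟩ := (wellFounded_gt (α := Ideal (MvPolynomial ι A))).has_min
    {q | App q ∧ Ideal.span (Set.range f) ≤ q} ⟨_, h0, le_rfl⟩
  -- elements outside of `q`
  have hkey : ∀ a : MvPolynomial ι A, a ∉ q → ∃ c0 : ℕ, ∀ (i : I) (x : ι → B i),
      (∃ j, ¬ (algebraMap A (B i) π) ^ w j ∣ x j) →
      (∀ h ∈ q, (algebraMap A (B i) π) ^ c0 ∣ aeval x h) →
      ¬ (algebraMap A (B i) π) ^ c0 ∣ aeval x a := by
    intro a ha
    have h3 : ¬ App (q ⊔ Ideal.span {a}) := by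
      intro h4
      refine hqmax (q ⊔ Ideal.span {a}) ⟨h4, hq2.trans le_sup_left⟩ ?_
      change q < q ⊔ Ideal.span {a}
      refine lt_of_le_of_ne le_sup_left ?_
      intro h5
      apply ha
      rw [h5]
      exact (le_sup_right : Ideal.span {a} ≤ q ⊔ Ideal.span {a})
        (Ideal.mem_span_singleton_self a)
    simp only [App] at h3
    push Not at h3
    obtain ⟨c0, hc0⟩ := h3
    refine ⟨c0, fun i x hx hxq hxa => ?_⟩
    obtain ⟨h, hh, hh2⟩ := hc0 i x hx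
    apply hh2
    obtain ⟨b, hb, r, hr, rfl⟩ := Submodule.mem_sup.1 hh
    obtain ⟨s, rfl⟩ := Ideal.mem_span_singleton'.1 hr
    rw [map_add, map_mul]
    exact dvd_add (hxq b hb) (Dvd.dvd.mul_left hxa _)
  have hpow : ∀ (i : I) (x : ι → B i) (m n : ℕ), m ≤ n →
      (∀ h ∈ q, (algebraMap A (B i) π) ^ n ∣ aeval x h) →
      ∀ h ∈ q, (algebraMap A (B i) π) ^ m ∣ aeval x h :=
    fun i x m n hmn h g hg => (pow_dvd_pow _ hmn).trans (h g hg)
  have hprime : q.IsPrime := by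
    refine ⟨?_, ?_⟩
    · intro htop
      obtain ⟨i, x, -, hx⟩ := hq1 1
      have h3 := hx 1 (by rw [htop]; trivial)
      rw [map_one, pow_one] at h3
      exact (hB i).not_isUnit (isUnit_of_dvd_one h3)
    · intro a b hab
      by_contra hcon
      push Not at hcon
      obtain ⟨ca, hca⟩ := hkey a hcon.1
      obtain ⟨cb, hcb⟩ := hkey b hcon.2
      obtain ⟨i, x, hx, hxq⟩ := hq1 (ca + cb)
      have h3 := hca i x hx (hpow i x _ _ (Nat.le_add_right _ _) hxq)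
      have h4 := hcb i x hx (hpow i x _ _ (Nat.le_add_left _ _) hxq)
      have h5 := hxq _ hab
      rw [map_mul] at h5
      exact dvr_mul (hB i) h3 h4 h5
  have hconst : ∀ a : A, C a ∈ q → a = 0 := by
    intro a ha
    by_contra ha0
    obtain ⟨n, u, hu⟩ := IsDiscreteValuationRing.eq_unit_mul_pow_irreducible ha0 hπ
    obtain ⟨i, x, -, hx⟩ := hq1 (n + 1)
    have h3 := hx _ ha
    rw [← algebraMap_eq, AlgHom.commutes, hu, map_mul, map_pow] at h3
    have h4 := (dvr_pow_dvd (hB i) (Units.map (algebraMap A (B i) : A →* B i) u) (n + 1) n).1 h3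
    omega
  obtain ⟨N, Θ, a, Q, G, P, S, hN, ha, hQ, hG, hG', hP, hS⟩ := h1 A ι q hprime hconst κ f
    fun j => hq2 (Ideal.subset_span ⟨j, rfl⟩)
  have hD : a * Q * G.derivative.eval Θ ∉ q := by
    intro h3
    rcases hprime.mem_or_mem h3 with h3 | h3
    · rcases hprime.mem_or_mem h3 with h3 | h3
      · exact ha h3
      · exact hQ h3
    · exact hG' h3
  obtain ⟨c0, hc0⟩ := hkey _ hD
  obtain ⟨W, hW⟩ : ∃ W : ℕ, ∀ j, w j ≤ W := by
    obtain ⟨W, hW⟩ := (Set.finite_range w).bddAbove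
    exact ⟨W, fun j => hW ⟨j, rfl⟩⟩
  let c := 3 * c0 + W + 1
  obtain ⟨i, x, hxN, hx⟩ := hq1 c
  let ρ : MvPolynomial ι A →ₐ[A] B i := aeval x
  let ϖ : B i := algebraMap A (B i) π
  have hϖ : Irreducible ϖ := hB i
  have h3 : ¬ ϖ ^ c0 ∣ ρ (a * Q * G.derivative.eval Θ) :=
    hc0 i x hxN (hpow i x _ _ (by omega) hx)
  rw [map_mul, map_mul] at h3
  have ha1 : ¬ ϖ ^ c0 ∣ ρ a := fun h => h3 ((h.mul_right _).mul_right _)
  have hQ1 : ¬ ϖ ^ c0 ∣ ρ Q := fun h => h3 ((h.mul_left _).mul_right _)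
  have hδ1 : ¬ ϖ ^ c0 ∣ ρ (G.derivative.eval Θ) := fun h => h3 (h.mul_left _)
  obtain ⟨Q', hQ'⟩ := dvr_dvd_pow hϖ hQ1
  obtain ⟨δ', hδ'⟩ := dvr_dvd_pow hϖ hδ1
  let g : Polynomial (B i) := G.map (ρ : MvPolynomial ι A →+* B i)
  have hev : ∀ (H : Polynomial (MvPolynomial ι A)) (t : MvPolynomial ι A),
      (H.map (ρ : MvPolynomial ι A →+* B i)).eval (ρ t) = ρ (H.eval t) := by
    intro H t
    exact Polynomial.eval_map_apply (ρ : MvPolynomial ι A →+* B i) t
  have hgb : g.eval (ρ Θ) = ρ (G.eval Θ) := hev G Θ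
  have hgb' : g.derivative.eval (ρ Θ) = ρ (G.derivative.eval Θ) := by
    change (G.map _).derivative.eval _ = _
    rw [Polynomial.derivative_map]
    exact hev _ Θ
  obtain ⟨t, ht⟩ := hx _ hG
  let ε : B i := ϖ ^ (c0 + W + 1) * (δ' ^ 2 * t)
  have hε : ε ∈ IsLocalRing.maximalIdeal (B i) := by
    apply Ideal.mul_mem_right
    rw [pow_succ]
    apply Ideal.mul_mem_left
    exact (IsLocalRing.mem_maximalIdeal _).2 hϖ.not_isUnit
  have hgε : g.eval (ρ Θ) = (g.derivative.eval (ρ Θ)) ^ 2 * ε := by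
    rw [hgb, hgb']
    change aeval x (G.eval Θ) = _
    rw [ht]
    calc (algebraMap A (B i) π) ^ c * t = ϖ ^ c * t := rfl
      _ = (ϖ ^ c0) ^ 2 * (ϖ ^ (c0 + W + 1) * t) := by
        rw [← pow_mul, ← mul_assoc, ← pow_add]
        congr 2
        omega
      _ = (ρ (G.derivative.eval Θ) * δ') ^ 2 * (ϖ ^ (c0 + W + 1) * t) := by rw [hδ']
      _ = _ := by
        simp only [ε]
        ring
  obtain ⟨u, hu⟩ := h2 (B i) g (ρ Θ) ε hε hgε
  let θ' : B i := ρ Θ + g.derivative.eval (ρ Θ) * ε * u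
  have hθ' : g.eval θ' = 0 := hu
  -- the coordinates
  have hcoord : ∀ j, ∃ y : B i, ((P j).map (ρ : MvPolynomial ι A →+* B i)).eval θ' = ρ Q * y ∧
      ϖ ^ (W + 1) ∣ x j - y := by
    intro j
    obtain ⟨s, hs⟩ := hx _ (hP j)
    obtain ⟨r, hr⟩ := Polynomial.sub_dvd_eval_sub θ' (ρ Θ)
      ((P j).map (ρ : MvPolynomial ι A →+* B i))
    have h4 : θ' - ρ Θ = ϖ ^ (c0 + W + 1) * (g.derivative.eval (ρ Θ) * (δ' ^ 2 * t) * u) := by
      simp only [θ', ε]
      ring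
    rw [h4, hev] at hr
    have h5 : ρ Q * x j - ρ ((P j).eval Θ) = ϖ ^ c * s := by
      have h6 : aeval x (Q * X j - (P j).eval Θ) = ρ Q * x j - ρ ((P j).eval Θ) := by
        rw [map_sub, map_mul, aeval_X]
      rw [← h6]
      exact hs
    let z : B i := g.derivative.eval (ρ Θ) * (δ' ^ 2 * t) * u * r - ϖ ^ (2 * c0) * s
    refine ⟨x j + ϖ ^ (W + 1) * (Q' * z), ?_, ?_⟩
    · have h7 : ((P j).map (ρ : MvPolynomial ι A →+* B i)).eval θ' =
          ρ Q * x j + ϖ ^ (c0 + W + 1) * z := by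
        have h8 : ϖ ^ c = ϖ ^ (c0 + W + 1) * ϖ ^ (2 * c0) := by
          rw [← pow_add]
          congr 1
          omega
        have h9 : ((P j).map (ρ : MvPolynomial ι A →+* B i)).eval θ' =
            ρ ((P j).eval Θ) + ϖ ^ (c0 + W + 1) *
              (g.derivative.eval (ρ Θ) * (δ' ^ 2 * t) * u) * r := by
          rw [← hr]; ring
        have h10 : ρ ((P j).eval Θ) = ρ Q * x j - ϖ ^ (c0 + W + 1) * ϖ ^ (2 * c0) * s := by
          rw [← h8, ← h5]; ring
        rw [h9, h10]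
        simp only [z]
        ring
      rw [h7]
      have h11 : ϖ ^ (c0 + W + 1) = ρ Q * Q' * ϖ ^ (W + 1) := by
        rw [hQ', ← pow_add]
        congr 1
      rw [h11]
      ring
    · refine ⟨-(Q' * z), ?_⟩
      ring
  choose y hy1 hy2 using hcoord
  refine ⟨i, y, ?_, ?_⟩
  · intro hy0
    obtain ⟨j, hj⟩ := hxN
    apply hj
    have h4 := hy2 j
    rw [hy0, Pi.zero_apply, sub_zero] at h4
    exact (pow_dvd_pow _ ((hW j).trans (Nat.le_succ W))).trans h4
  · intro j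
    let T : Polynomial (MvPolynomial ι A) →+* B i :=
      Polynomial.eval₂RingHom (ρ : MvPolynomial ι A →+* B i) θ'
    have hT : ∀ H : Polynomial (MvPolynomial ι A),
        T H = (H.map (ρ : MvPolynomial ι A →+* B i)).eval θ' := by
      intro H
      rw [Polynomial.eval_map]
      rfl
    have hTC : ∀ t : MvPolynomial ι A, T (Polynomial.C t) = ρ t := by
      intro t
      rw [hT, Polynomial.map_C, Polynomial.eval_C]
      rfl
    have h4 := hmg_eval T (by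
      intro r
      change T (Polynomial.C (algebraMap A (MvPolynomial ι A) r)) = _
      rw [hTC, AlgHom.commutes]) N P (Polynomial.C Q) (f j) (hN j) y (by
      intro l
      rw [hT, hTC, hy1])
    have h5 := congrArg T (hS j)
    rw [map_mul, map_mul, hTC, h4, hTC, hT G] at h5
    change ρ a * (ρ Q ^ N * aeval y (f j)) = g.eval θ' * T (S j) at h5
    rw [hθ', zero_mul] at h5
    have ha0 : ρ a ≠ 0 := fun h => ha1 (h ▸ dvd_zero _)
    have hQ0 : ρ Q ≠ 0 := fun h => hQ1 (h ▸ dvd_zero _)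
    rcases mul_eq_zero.1 h5 with h6 | h6
    · exact absurd h6 ha0
    · rcases mul_eq_zero.1 h6 with h6 | h6
      · exact ((pow_ne_zero N hQ0) h6).elim
      · exact h6

end Pool.Agent.Q49.TL
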