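import Pool.Agent.Q34.TL.Bez

set_option autoImplicit false

/-!
# Project TL: the index of a hypersurface divides its degree
-/

namespace Pool.Agent.Q49.TL

open MvPolynomial Q34.TL

/-- The degrees of the finite extensions of `K` over which the system `f` has a nontrivial common
zero. -/
def Degrees {ι κ K : Type} [Field K] (f : κ → MvPolynomial ι K) : Set ℕ :=
  {δ | ∃ (L : Type) (_ : Field L) (_ : Algebra K L), FiniteDimensional K L ∧
    Module.finrank K L = δ ∧ ∃ x : ι → L, x ≠ 0 ∧ ∀ j, aeval x (f j) = 0}

theorem idx_dvd {K : Type} [Field K] {n d : ℕ} (f : MvPolynomial (Fin (n + 1)) K) (hn : 0 < n)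
    (hf : f.IsHomogeneous d) (a : ℕ) (ha : ∀ δ ∈ Degrees (fun _ : Unit => f), a ∣ δ) : a ∣ d := by
  obtain ⟨m, rfl⟩ : ∃ m, n = m + 1 := ⟨n - 1, by omega⟩
  set e0 : Fin (m + 1 + 1) → K := Pi.single 0 1 with he0
  set e1 : Fin (m + 1 + 1) → K := Pi.single 1 1 with he1
  have h01 : e0 1 = 0 := by
    rw [he0, Pi.single_apply, if_neg]
    exact Fin.zero_ne_one.symm
  have h11 : e1 1 = 1 := by
    rw [he1, Pi.single_eq_same]
  by_cases h0 : eval e0 f = 0
  · have h1 : (1 : ℕ) ∈ Degrees (fun _ : Unit => f) := by
      refine ⟨K, inferInstance, inferInstance, inferInstance, Module.finrank_self K, e0, ?_,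
        fun _ => h0⟩
      intro h
      have := congrFun h 0
      rw [he0, Pi.single_eq_same] at this
      exact one_ne_zero this
    exact (ha 1 h1).trans (one_dvd d)
  · by_contra hd
    set g : Polynomial K := aeval (ln e1 e0) f with hg
    have hgd : g.coeff d ≠ 0 := by
      rw [hg, line_top hf]
      exact h0
    have hdeg : g.natDegree = d := by
      refine le_antisymm ?_ (Polynomial.le_natDegree_of_ne_zero hgd)
      have := (refl_aeval (N := 1) (ln_deg e1 e0) (ln_refl e0 e1) hf).1
      rwa [mul_one] at this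
    have hg0 : g ≠ 0 := by
      intro h
      rw [h, Polynomial.coeff_zero] at hgd
      exact hgd rfl
    obtain ⟨q, hq, hqg, hql⟩ := exists_factor a g hg0 (by rw [hdeg]; exact hd)
    have : Fact (Irreducible q) := ⟨hq⟩
    apply hql
    apply ha
    refine ⟨AdjoinRoot q, inferInstance, inferInstance,
      (AdjoinRoot.powerBasis hq.ne_zero).finite, ?_,
      fun i => algebraMap K (AdjoinRoot q) (e1 i) + algebraMap K (AdjoinRoot q) (e0 i) *
        AdjoinRoot.root q, ?_, fun _ => ?_⟩
    · rw [(AdjoinRoot.powerBasis hq.ne_zero).finrank, AdjoinRoot.powerBasis_dim]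
    · intro h
      have := congrFun h 1
      simp only [h11, h01, map_one, map_zero, zero_mul, add_zero, Pi.zero_apply] at this
      exact one_ne_zero this
    · have h1 : aeval (fun i => algebraMap K (AdjoinRoot q) (e1 i) +
          algebraMap K (AdjoinRoot q) (e0 i) * AdjoinRoot.root q) f =
          Polynomial.aeval (AdjoinRoot.root q) g := by
        rw [hg, comp_aeval_apply]
        congr 2
        funext i
        unfold ln
        rw [map_add, map_mul, Polynomial.aeval_C, Polynomial.aeval_C, Polynomial.aeval_X]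
      rw [h1]
      obtain ⟨r, hr⟩ := hqg
      rw [hr, map_mul, AdjoinRoot.aeval_eq, AdjoinRoot.mk_self, zero_mul]

end Pool.Agent.Q49.TL
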