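import Pool.Agent.Q49.TL.Grb
import Pool.Agent.Q225.TL.Loc

set_option autoImplicit false

/-!
# Project TL: zeros of systems of forms over the `p`-adic numbers
-/

namespace Pool.Agent.Q49.TL

open MvPolynomial Pool.Agent.Q225.TL

section witt

variable (p ℓ : ℕ) [Fact p.Prime]

theorem charP_F (F : FinF p ℓ) : CharP F.k p :=
  charP_of_injective_algebraMap (algebraMap (ZMod p) F.k).injective p

theorem perf_F (F : FinF p ℓ) : haveI := charP_F p ℓ F; PerfectRing F.k p :=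
  haveI := charP_F p ℓ F
  inferInstance

theorem dom_W (F : FinF p ℓ) : IsDomain (WittVector p F.k) :=
  haveI := charP_F p ℓ F
  inferInstance

theorem dvr_W (F : FinF p ℓ) :
    haveI := dom_W p ℓ F
    IsDiscreteValuationRing (WittVector p F.k) :=
  haveI := charP_F p ℓ F
  haveI := perf_F p ℓ F
  WittVector.isDiscreteValuationRing

theorem irr_W (F : FinF p ℓ) : Irreducible (p : WittVector p F.k) :=
  haveI := charP_F p ℓ F
  haveI := perf_F p ℓ F
  WittVector.irreducible p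

theorem hens_W (F : FinF p ℓ) : HenselianLocalRing (WittVector p F.k) := by
  haveI := charP_F p ℓ F
  haveI := perf_F p ℓ F
  haveI := dom_W p ℓ F
  haveI := dvr_W p ℓ F
  have hmax : IsLocalRing.maximalIdeal (WittVector p F.k) = Ideal.span {(p : WittVector p F.k)} :=
    (irr_W p ℓ F).maximalIdeal_eq
  have hh : HenselianRing (WittVector p F.k) (Ideal.span {(p : WittVector p F.k)}) := inferInstance
  refine ⟨fun f hf a₀ h1 h2 => ?_⟩
  obtain ⟨a, ha, hb⟩ := hh.is_henselian f hf a₀ (by rw [← hmax]; exact h1)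
    (h2.map (Ideal.Quotient.mk _))
  exact ⟨a, ha, by rw [hmax]; exact hb⟩

end witt

/-- zeros over the Witt vectors -/
theorem wp1 (hW : S_WIT) (hG : S_GRB) (p ℓ : ℕ) [Fact p.Prime] [Fact ℓ.Prime] (hpl : p ≠ ℓ)
    (ι κ : Type) [Fintype ι] [Fintype κ] (w : ι → ℕ) (e : κ → ℕ)
    (f : κ → MvPolynomial ι ℤ_[p]) (hw : ∀ i, 0 < w i) (he : ∀ j, 0 < e j)
    (hf : ∀ j, IsWeightedHomogeneous w (f j) (e j))
    (hlt : ∑ j, e j * ℓ ^ (e j).factorization ℓ < ∑ i, w i * ℓ ^ (w i).factorization ℓ) :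
    ∃ (F : FinF p ℓ) (x : ι → WittVector p F.k), x ≠ 0 ∧
      ∀ j, eval₂ (tau p F.k) x (f j) = 0 := by
  letI : ∀ F : FinF p ℓ, IsDomain (WittVector p F.k) := dom_W p ℓ
  letI : ∀ F : FinF p ℓ, IsDiscreteValuationRing (WittVector p F.k) := dvr_W p ℓ
  letI : ∀ F : FinF p ℓ, HenselianLocalRing (WittVector p F.k) := hens_W p ℓ
  letI : ∀ F : FinF p ℓ, Algebra ℤ_[p] (WittVector p F.k) := fun F => (tau p F.k).toAlgebra
  have hp : ∀ F : FinF p ℓ, algebraMap ℤ_[p] (WittVector p F.k) (p : ℤ_[p]) =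
      (p : WittVector p F.k) := fun F => map_natCast _ p
  obtain ⟨F, x, hx, hx2⟩ := hG ℤ_[p] (p : ℤ_[p]) PadicInt.irreducible_p (FinF p ℓ)
    (fun F => WittVector p F.k) (fun F => by rw [hp]; exact irr_W p ℓ F) ι κ w f (by
      intro c
      obtain ⟨F, x, hx1, hx2⟩ := hW p ℓ hpl ι κ w e f hw he hf hlt c
      refine ⟨F, x, ?_, ?_⟩
      · obtain ⟨i, hi⟩ := hx1
        exact ⟨i, by rw [hp]; exact hi⟩
      · intro j
        rw [hp]
        exact hx2 j)
  exact ⟨F, x, hx, hx2⟩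

/-- zeros of systems over the `p`-adic numbers -/
theorem wp2 (hW : S_WIT) (hG : S_GRB) (hU : S_UNR) (p ℓ : ℕ) [Fact p.Prime] [Fact ℓ.Prime]
    (hpl : p ≠ ℓ) (ι κ : Type) [Fintype ι] [Fintype κ] (w : ι → ℕ) (e : κ → ℕ)
    (f : κ → MvPolynomial ι ℚ_[p]) (hw : ∀ i, 0 < w i) (he : ∀ j, 0 < e j)
    (hf : ∀ j, IsWeightedHomogeneous w (f j) (e j))
    (hlt : ∑ j, e j * ℓ ^ (e j).factorization ℓ < ∑ i, w i * ℓ ^ (w i).factorization ℓ) :
    ∃ (K : Type) (_ : Field K) (_ : Algebra ℚ_[p] K), FiniteDimensional ℚ_[p] K ∧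
      IsGalois ℚ_[p] K ∧ ¬ ℓ ∣ Module.finrank ℚ_[p] K ∧
      ∃ x : ι → K, x ≠ 0 ∧ ∀ j, aeval x (f j) = 0 := by
  have hcl := fun j => clear (A := ℤ_[p]) (f j)
  choose c g hc hg using hcl
  have hgw : ∀ j, IsWeightedHomogeneous w (g j) (e j) := fun j =>
    wh_clear w (e j) (f j) (hf j) (c j) (g j) (hg j)
  obtain ⟨F, x, hx, hx2⟩ := wp1 hW hG p ℓ hpl ι κ w e g hw he hgw hlt
  obtain ⟨K, _, _, ρ, hfin, hgal, hdeg, hinj, hρ⟩ := hU p F.k
  refine ⟨K, inferInstance, inferInstance, hfin, hgal, by rw [hdeg]; exact F.deg,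
    fun i => ρ (x i), ?_, ?_⟩
  · intro h0
    apply hx
    funext i
    apply hinj
    rw [Pi.zero_apply, map_zero]
    exact congrFun h0 i
  · intro j
    have h1 := congrArg ρ (hx2 j)
    rw [map_zero, hom_eval₂] at h1
    have h2 : ρ.comp (tau p F.k) = (algebraMap ℚ_[p] K).comp (algebraMap ℤ_[p] ℚ_[p]) := by
      ext a
      exact hρ a
    rw [h2] at h1
    have h3 : aeval (fun i => ρ (x i)) (MvPolynomial.map (algebraMap ℤ_[p] ℚ_[p]) (g j)) = 0 := by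
      rw [aeval_def, eval₂_map]
      exact h1
    rw [hg j, map_mul, aeval_C] at h3
    rcases mul_eq_zero.1 h3 with h4 | h4
    · exact absurd ((IsFractionRing.injective ℤ_[p] ℚ_[p])
        ((algebraMap ℚ_[p] K).injective (h4.trans (map_zero _).symm) |>.trans
          (map_zero _).symm)) (hc j)
    · exact h4

/-- zeros of systems over finite extensions of the `p`-adic numbers -/
theorem wp3 (hW : S_WIT) (hG : S_GRB) (hU : S_UNR) (hD : S_DSC) (p ℓ : ℕ) [Fact p.Prime]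
    [Fact ℓ.Prime] (hpl : p ≠ ℓ) (K : Type) [Field K] [Algebra ℚ_[p] K]
    [FiniteDimensional ℚ_[p] K] (ι κ : Type) [Fintype ι] [Fintype κ] (w : ι → ℕ) (e : κ → ℕ)
    (f : κ → MvPolynomial ι K) (hw : ∀ i, 0 < w i) (he : ∀ j, 0 < e j)
    (hf : ∀ j, IsWeightedHomogeneous w (f j) (e j))
    (hlt : ∑ j, e j * ℓ ^ (e j).factorization ℓ < ∑ i, w i * ℓ ^ (w i).factorization ℓ) :
    ∃ (L : Type) (_ : Field L) (_ : Algebra K L), FiniteDimensional K L ∧
      ¬ ℓ ∣ Module.finrank K L ∧ ∃ x : ι → L, x ≠ 0 ∧ ∀ j, aeval x (f j) = 0 := by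
  obtain ⟨m, g, hm, hgw, hg⟩ := hD ℚ_[p] K ι κ w e f hf
  obtain ⟨K1, _, _, hfin, hgal, hdeg, y, hy, hy2⟩ := wp2 hW hG hU p ℓ hpl (ι × Fin m)
    (κ × Fin m) (fun s => w s.1) (fun s => e s.1) g (fun s => hw s.1) (fun s => he s.1) hgw (by
      rw [Fintype.sum_prod_type, Fintype.sum_prod_type]
      simp only [Finset.sum_const, Finset.card_univ, Fintype.card_fin, smul_eq_mul]
      rw [← Finset.mul_sum, ← Finset.mul_sum]
      exact Nat.mul_lt_mul_of_pos_left hlt hm)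
  exact hg K1 ℓ hdeg y hy hy2

end Pool.Agent.Q49.TL
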