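import Pool.Agent.Q49.TL.LinkW
import Pool.Agent.Q49.TL.Wp
import Pool.Agent.Q49.TL.Bra
import Pool.Agent.Q177.TL.Alg

set_option autoImplicit false

/-!
# Project TL: conics through two points over extensions, and in many variables
-/

namespace Pool.Agent.Q49.TL

open MvPolynomial Q34.TL

theorem link_of_zero {K ι κ : Type} [Field K] (d : κ → ℕ) (f : κ → MvPolynomial ι K)
    (hf : ∀ j, (f j).IsHomogeneous (d j)) (x y : ι → K) (hx : ∀ j, eval x (f j) = 0)
    (hy : ∀ j, eval y (f j) = 0) (X0 : Option ι → K) (hX0 : X0 ≠ 0)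
    (hA0 : ∀ j, ∀ i < d j, eval X0 ((aeval (Gw x y) (f j)).coeff (i + 1)) = 0)
    (hB0 : ∀ j, ∀ i < d j - 1, eval X0 ((aeval (Gw y x) (f j)).coeff (i + 1)) = 0) :
    LinkedW f x y := by
  have hA : ∀ j, ∀ i < d j, (aeval (cn x (fun i => X0 (some i)) (fun i => X0 none * y i))
      (f j)).coeff (i + 1) = 0 := by
    intro j i hi
    rw [← eval_Gw]
    exact hA0 j i hi
  have hB : ∀ j, ∀ i < d j - 1, (aeval (cn y (fun i => X0 (some i)) (fun i => X0 none * x i))
      (f j)).coeff (i + 1) = 0 := by
    intro j i hi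
    rw [← eval_Gw]
    exact hB0 j i hi
  by_cases hs : X0 none = 0
  · right
    refine ⟨fun i => X0 (some i), ?_, ?_⟩
    · intro h0
      apply hX0
      funext o
      rcases o with _ | i
      · exact hs
      · exact congrFun h0 i
    · have e : ∀ x y : ι → K, cn x (fun i => X0 (some i)) (fun i => X0 none * y i) =
          ln x (fun i => X0 (some i)) := by
        intro x y
        funext i
        unfold ln cn
        simp only [hs, zero_mul, Polynomial.C_0, add_zero]
      have key : ∀ j, aeval (ln x (fun i => X0 (some i))) (f j) = 0 ∧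
          aeval (ln (fun i => X0 (some i)) y) (f j) = 0 := by
        intro j
        refine two_lines (hf j) (fun i hi => ?_) (fun i hi => ?_)
        · rcases i with _ | i
          · rw [coeff_zero_val, ← hx j]
            congr 2
            funext i
            unfold ln
            simp
          · rw [← e x y]
            exact hA j i (by omega)
        · rcases i with _ | i
          · rw [coeff_zero_val, ← hy j]
            congr 2
            funext i
            unfold ln
            simp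
          · rw [← e y x]
            exact hB j i (by omega)
      exact ⟨fun j => (key j).1, fun j => (key j).2⟩
  · left
    refine ⟨fun i => X0 (some i), X0 none, hs, fun j => ?_⟩
    refine conic (hf j) (fun i hi => ?_) (fun i hi => ?_)
    · rcases i with _ | i
      · rw [coeff_zero_val, ← hx j]
        congr 2
        funext i
        unfold cn
        simp
      · exact hA j i (by omega)
    · refine scaleW (hf j) x y _ _ hs i ?_
      rcases i with _ | i
      · rw [coeff_zero_val, ← hy j]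
        congr 2
        funext i
        unfold cn
        simp
      · exact hB j i (by omega)

section sys

variable {K ι κ : Type} [Field K]

/-- the degrees of the equations for the conics -/
def de (d : κ → ℕ) (q : Σ j : κ, Fin (d j) ⊕ Fin (d j - 1)) : ℕ :=
  Sum.elim (fun i => i.1 + 1) (fun i => i.1 + 1) q.2

/-- the equations for the conics -/
noncomputable def fe (d : κ → ℕ) (f : κ → MvPolynomial ι K) (x y : ι → K)
    (q : Σ j : κ, Fin (d j) ⊕ Fin (d j - 1)) : MvPolynomial (Option ι) K :=
  Sum.elim (fun i => (aeval (Gw x y) (f q.1)).coeff (i.1 + 1))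
    (fun i => (aeval (Gw y x) (f q.1)).coeff (i.1 + 1)) q.2

theorem de_pos (d : κ → ℕ) (q) : 0 < de d q := by
  rcases q with ⟨j, i | i⟩ <;> exact Nat.succ_pos _

theorem de_le (d : κ → ℕ) (q) : de d q ≤ d q.1 := by
  rcases q with ⟨j, i | i⟩
  · exact i.2
  · have := i.2
    change i.1 + 1 ≤ d j
    omega

theorem fe_hom (d : κ → ℕ) (f : κ → MvPolynomial ι K) (x y : ι → K) (q) :
    IsWeightedHomogeneous (wo ι) (fe d f x y q) (de d q) := by
  rcases q with ⟨j, i | i⟩
  · exact aeval_Gw_mem x y (f j) (i.1 + 1)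
  · exact aeval_Gw_mem y x (f j) (i.1 + 1)

theorem cost (φ : ℕ → ℕ) [Fintype κ] (d : κ → ℕ) (hd : ∀ j, 0 < d j) :
    ∑ q, φ (de d q) = ∑ j, (2 * ∑ i ∈ Finset.Ico 1 (d j), φ i + φ (d j)) := by
  rw [Fintype.sum_sigma]
  refine Finset.sum_congr rfl fun j _ => ?_
  rw [Fintype.sum_sum_type]
  show ∑ i : Fin (d j), φ (i.1 + 1) + ∑ i : Fin (d j - 1), φ (i.1 + 1) = _
  rw [Fin.sum_univ_eq_sum_range (fun i => φ (i + 1)) (d j),
    Fin.sum_univ_eq_sum_range (fun i => φ (i + 1)) (d j - 1)]
  have h1 : ∑ i ∈ Finset.Ico 1 (d j), φ i = ∑ i ∈ Finset.range (d j - 1), φ (i + 1) := by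
    rw [Finset.sum_Ico_eq_sum_range]
    exact Finset.sum_congr rfl fun i _ => by rw [add_comm]
  have h2 : d j = (d j - 1) + 1 := by
    have := hd j
    omega
  rw [h1]
  conv_lhs => rw [h2]
  rw [Finset.sum_range_succ, Nat.add_sub_cancel, ← h2]
  ring

theorem cost_w (φ : ℕ → ℕ) [Fintype ι] :
    ∑ o, φ (wo ι o) = φ 2 + Fintype.card ι * φ 1 := by
  rw [Fintype.sum_option]
  congr 1
  change ∑ _i : ι, φ 1 = _
  rw [Finset.sum_const, Finset.card_univ, smul_eq_mul]

theorem wo_pos (o : Option ι) : 0 < wo ι o := by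
  rcases o with _ | i <;> simp [wo]

/-- base change of the equations -/
theorem aeval_Gw_map {L : Type} [Field L] (φ : K →+* L) (x y : ι → K) (f : MvPolynomial ι K) :
    aeval (Gw (fun i => φ (x i)) (fun i => φ (y i))) (map φ f) =
      (aeval (Gw x y) f).map (map φ) := by
  have h1 : ((aeval (Gw x y) f).map (map φ) : Polynomial (MvPolynomial (Option ι) L)) =
      Polynomial.mapRingHom (map φ) (eval₂ (algebraMap K _) (Gw x y) f) := rfl
  rw [h1, hom_eval₂, aeval_def, eval₂_map]
  congr 1
  · refine RingHom.ext fun a => ?_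
    change algebraMap L _ (φ a) = Polynomial.map (map φ) (Polynomial.C (C a))
    rw [Polynomial.map_C, map_C]
    rfl
  · funext i
    unfold Gw
    have h2 : ∀ a : K, algebraMap L (Polynomial (MvPolynomial (Option ι) L)) (φ a) =
        Polynomial.map (map φ) (algebraMap K (Polynomial (MvPolynomial (Option ι) K)) a) := by
      intro a
      change Polynomial.C (C (φ a)) = Polynomial.map (map φ) (Polynomial.C (C a))
      rw [Polynomial.map_C, map_C]
    simp only [Polynomial.coe_mapRingHom, Polynomial.map_add, Polynomial.map_mul,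
      Polynomial.map_pow, Polynomial.map_X, Polynomial.map_C, map_X, h2]

/-- a nontrivial zero of the equations over an extension gives a conic or two lines -/
theorem link_ext {L : Type} [Field L] [Algebra K L] (d : κ → ℕ) (f : κ → MvPolynomial ι K)
    (hf : ∀ j, (f j).IsHomogeneous (d j)) (x y : ι → K) (hx : ∀ j, eval x (f j) = 0)
    (hy : ∀ j, eval y (f j) = 0) (X0 : Option ι → L) (hX0 : X0 ≠ 0)
    (h : ∀ q, aeval X0 (fe d f x y q) = 0) :
    LinkedW (fun j => map (algebraMap K L) (f j)) (fun i => algebraMap K L (x i))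
      (fun i => algebraMap K L (y i)) := by
  have hev : ∀ z : ι → K, ∀ j, eval z (f j) = 0 →
      eval (fun i => algebraMap K L (z i)) (map (algebraMap K L) (f j)) = 0 := by
    intro z j hz
    have h2 := MvPolynomial.eval₂_comp (algebraMap K L) z (f j)
    rw [eval_map]
    rw [hz, map_zero] at h2
    exact h2.symm
  refine link_of_zero d _ (fun j => (hf j).map _) _ _ (fun j => hev x j (hx j))
    (fun j => hev y j (hy j)) X0 hX0 (fun j i hi => ?_) (fun j i hi => ?_)
  · rw [aeval_Gw_map, Polynomial.coeff_map, eval_map]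
    exact h ⟨j, Sum.inl ⟨i, hi⟩⟩
  · rw [aeval_Gw_map, Polynomial.coeff_map, eval_map]
    exact h ⟨j, Sum.inr ⟨i, hi⟩⟩

end sys

/-! ### Many variables -/

/-- Systems of `r` forms of degrees at most `D` in at least `B r D` variables have nontrivial
zeros. -/
def MV (K : Type) [Field K] (B : ℕ → ℕ → ℕ) : Prop :=
  ∀ (ι κ : Type) [Fintype ι] [Fintype κ] (D : ℕ) (e : κ → ℕ) (f : κ → MvPolynomial ι K),
    (∀ j, 0 < e j) → (∀ j, e j ≤ D) → (∀ j, (f j).IsHomogeneous (e j)) →
    B (Fintype.card κ) D ≤ Fintype.card ι → ∃ x : ι → K, x ≠ 0 ∧ ∀ j, eval x (f j) = 0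

theorem mv_mono {K : Type} [Field K] {B B' : ℕ → ℕ → ℕ} (h : ∀ r D, B r D ≤ B' r D)
    (hB : MV K B) : MV K B' :=
  fun ι κ _ _ D e f h1 h2 h3 h4 => hB ι κ D e f h1 h2 h3 ((h _ _).trans h4)

theorem eval_res {K : Type} [Field K] {n : ℕ} (v : Fin 1 → Fin n → K)
    (f : MvPolynomial (Fin n) K) (h : res v f = 0) : eval (v 0) f = 0 := by
  have h1 := congrArg (eval (fun _ => (1 : K))) h
  rw [map_zero, res] at h1
  rw [← h1, ← aeval_eq_eval, ← aeval_eq_eval, comp_aeval_apply]
  congr 2
  funext i
  simp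

theorem mv_padic (hB : S_BRA) (hD : S_DQP) :
    ∃ B : ℕ → ℕ → ℕ, ∀ (p : ℕ) [Fact p.Prime], MV ℚ_[p] B := by
  obtain ⟨ψ, hψ⟩ := hD
  choose N hN using fun D r => hB ψ D r 1
  refine ⟨fun r D => N D r, fun p _ ι κ _ _ D e f he heD hf hn => ?_⟩
  obtain ⟨v, hv, hv2⟩ := hN D (Fintype.card κ) ℚ_[p] (hψ p) (Fintype.card ι) hn
    (fun j => e ((Fintype.equivFin κ).symm j))
    (fun j => rename (Fintype.equivFin ι) (f ((Fintype.equivFin κ).symm j)))
    (fun j => he _) (fun j => heD _) (fun j => (hf _).rename_isHomogeneous)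
  refine ⟨fun i => v 0 (Fintype.equivFin ι i), ?_, fun j => ?_⟩
  · intro h0
    apply hv.ne_zero 0
    funext k
    have := congrFun h0 ((Fintype.equivFin ι).symm k)
    rw [Equiv.apply_symm_apply] at this
    exact this
  · have h1 := eval_res v _ (hv2 (Fintype.equivFin κ j))
    rw [Equiv.symm_apply_apply, eval_rename] at h1
    exact h1

section

variable {K L : Type} [Field K] [Field L] [Algebra K L]

open Pool.Agent.Q177.TL.Alg in
theorem mv_fin {B : ℕ → ℕ → ℕ} (hK : MV K B) [FiniteDimensional K L] :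
    MV L (fun r D => B (r * Module.finrank K L) D) := by
  classical
  intro ι κ _ _ D e f he heD hf h
  set m := Module.finrank K L with hm
  have hmpos : 0 < m := Module.finrank_pos
  let b : Module.Basis (Fin m) K L := Module.finBasis K L
  let s : ι → MvPolynomial (ι × Fin m) L := fun i => ∑ k, C (b k) * X (i, k)
  have hs : ∀ i, IsWeightedHomogeneous (1 : ι × Fin m → ℕ) (s i) ((1 : ι → ℕ) i) := by
    intro i
    refine IsWeightedHomogeneous.sum _ _ _ fun k _ => ?_
    exact (isWeightedHomogeneous_X L (1 : ι × Fin m → ℕ) (i, k)).C_mul _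
  let g : κ × Fin m → MvPolynomial (ι × Fin m) K := fun x => cp b x.2 (aeval s (f x.1))
  obtain ⟨y, hy0, hy⟩ := hK (ι × Fin m) (κ × Fin m) D (fun x => e x.1) g
    (fun x => he x.1) (fun x => heD x.1)
    (fun x => hom_cp b x.2 _ 1 _ (hom_subst 1 1 s hs (f x.1) _ (hf x.1)))
    (by
      rw [Fintype.card_prod, Fintype.card_prod, Fintype.card_fin]
      exact h.trans (Nat.le_mul_of_pos_right _ hmpos))
  refine ⟨fun i => ∑ k, b k * algebraMap K L (y (i, k)), ?_, ?_⟩
  · intro h0
    apply hy0
    ext ⟨i, k⟩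
    have h1 : ∑ k, (y (i, k)) • b k = 0 := by
      have := congrFun h0 i
      simp only [Pi.zero_apply] at this
      rw [← this]
      refine Finset.sum_congr rfl fun k _ => ?_
      rw [Algebra.smul_def, mul_comm]
    exact Fintype.linearIndependent_iff.1 b.linearIndependent (fun k => y (i, k)) h1 k
  · intro j
    have h1 : eval (fun i => ∑ k, b k * algebraMap K L (y (i, k))) (f j) =
        eval (fun x => algebraMap K L (y x)) (aeval s (f j)) := by
      rw [← aeval_eq_eval, ← aeval_eq_eval]
      have : (aeval (fun x => algebraMap K L (y x)) : MvPolynomial (ι × Fin m) L →ₐ[L] L).comp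
          (aeval s) = aeval (fun i => ∑ k, b k * algebraMap K L (y (i, k))) := by
        apply MvPolynomial.algHom_ext
        intro i
        simp [s]
      rw [← this]
      rfl
    rw [h1, ← sum_cp b (aeval s (f j)), map_sum]
    refine Finset.sum_eq_zero fun k _ => ?_
    have h2 := MvPolynomial.eval₂_comp (algebraMap K L) y (cp b k (aeval s (f j)))
    have h3 : eval y (cp b k (aeval s (f j))) = 0 := hy (j, k)
    rw [h3, map_zero] at h2
    rw [map_mul, eval_map]
    exact mul_eq_zero_of_right _ h2.symm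

end

/-- many variables, uniformly for extensions of bounded degree -/
theorem mv_bdd {B : ℕ → ℕ → ℕ} (M : ℕ) :
    ∃ B' : ℕ → ℕ → ℕ, ∀ (K0 K : Type) [Field K0] [Field K] [Algebra K0 K]
      [FiniteDimensional K0 K], MV K0 B → Module.finrank K0 K ≤ M → MV K B' := by
  refine ⟨fun r D => (Finset.range (M + 1)).sup fun m => B (r * m) D, ?_⟩
  intro K0 K _ _ _ _ hK hM
  refine mv_mono (fun r D => ?_) (mv_fin (L := K) hK)
  exact Finset.le_sup (f := fun m => B (r * m) D) (Finset.mem_range.2 (Nat.lt_succ_of_le hM))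

/-- conics through two points in many variables -/
theorem link_mv {K : Type} [Field K] {B : ℕ → ℕ → ℕ} (hK : MV K B) {ι κ : Type} [Fintype ι]
    [Fintype κ] (d : κ → ℕ) (D : ℕ) (hD : ∀ j, d j ≤ D) (f : κ → MvPolynomial ι K)
    (hf : ∀ j, (f j).IsHomogeneous (d j))
    (hn : B (Fintype.card (Σ j : κ, Fin (d j) ⊕ Fin (d j - 1))) D ≤ Fintype.card ι)
    (x y : ι → K) (hx : ∀ j, eval x (f j) = 0) (hy : ∀ j, eval y (f j) = 0) :
    LinkedW f x y := by
  classical
  let s : Option ι → MvPolynomial (Option ι) K := fun o => X o ^ wo ι o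
  have hs : ∀ o, IsWeightedHomogeneous (1 : Option ι → ℕ) (s o) (wo ι o) := by
    intro o
    have h1 := (isWeightedHomogeneous_X K (1 : Option ι → ℕ) o).pow (wo ι o)
    simpa using h1
  obtain ⟨z, hz, hz2⟩ := hK (Option ι) (Σ j : κ, Fin (d j) ⊕ Fin (d j - 1)) D (de d)
    (fun q => aeval s (fe d f x y q)) (de_pos d) (fun q => (de_le d q).trans (hD q.1))
    (fun q => Pool.Agent.Q177.TL.Alg.hom_subst (wo ι) 1 s hs _ _ (fe_hom d f x y q))
    (hn.trans (by rw [Fintype.card_option]; exact Nat.le_succ _))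
  have h3 : ∀ q, eval (fun o => z o ^ wo ι o) (fe d f x y q) = 0 := by
    intro q
    rw [← hz2 q, ← aeval_eq_eval, ← aeval_eq_eval, comp_aeval_apply]
    congr 2
    funext o
    simp [s]
  refine link_of_zero d f hf x y hx hy (fun o => z o ^ wo ι o) ?_
    (fun j i hi => h3 ⟨j, Sum.inl ⟨i, hi⟩⟩) (fun j i hi => h3 ⟨j, Sum.inr ⟨i, hi⟩⟩)
  intro h0
  apply hz
  funext o
  exact pow_eq_zero_iff (wo_pos o).ne' |>.1 (congrFun h0 o)

end Pool.Agent.Q49.TL
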