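import Pool.Agent.Q34.TL.Link

set_option autoImplicit false

/-!
# Project TL: conics through two points, with weights
-/

namespace Pool.Agent.Q49.TL

open MvPolynomial Q34.TL

section
variable {K ι : Type} [Field K]

/-- the weights -/
def wo (ι : Type) : Option ι → ℕ := fun o => o.elim 2 (fun _ => 1)

/-- the polynomials with homogeneous coefficients -/
noncomputable def Hw (K ι : Type) [Field K] :
    Subalgebra K (Polynomial (MvPolynomial (Option ι) K)) where
  carrier := {p | ∀ i, IsWeightedHomogeneous (wo ι) (p.coeff i) i}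
  mul_mem' := fun {p q} hp hq n => by
    rw [Polynomial.coeff_mul]
    refine (weightedHomogeneousSubmodule K (wo ι) n).sum_mem fun ij hij => ?_
    rw [mem_weightedHomogeneousSubmodule, ← Finset.HasAntidiagonal.mem_antidiagonal.1 hij]
    exact (hp _).mul (hq _)
  add_mem' := fun {p q} hp hq n => by
    rw [Polynomial.coeff_add]
    exact (weightedHomogeneousSubmodule K (wo ι) n).add_mem (hp n) (hq n)
  algebraMap_mem' := fun c n => by
    have h1 : algebraMap K (Polynomial (MvPolynomial (Option ι) K)) c = Polynomial.C (C c) := rfl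
    rw [h1, Polynomial.coeff_C]
    split_ifs with h
    · rw [h]
      exact isWeightedHomogeneous_C _ _
    · exact isWeightedHomogeneous_zero _ _ _

/-- the value -/
noncomputable def Gw (x y : ι → K) (i : ι) : Polynomial (MvPolynomial (Option ι) K) :=
  algebraMap K _ (x i) + Polynomial.C (X (some i)) * Polynomial.X ^ 1 +
    algebraMap K _ (y i) * (Polynomial.C (X none) * Polynomial.X ^ 2)

theorem hw_lin (o : Option ι) : (Polynomial.C (X o) * Polynomial.X ^ (wo ι o) :
    Polynomial (MvPolynomial (Option ι) K)) ∈ Hw K ι := by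
  intro n
  rw [Polynomial.coeff_C_mul, Polynomial.coeff_X_pow]
  split_ifs with h
  · rw [mul_one, h]
    exact isWeightedHomogeneous_X _ _ _
  · rw [mul_zero]
    exact isWeightedHomogeneous_zero _ _ _

theorem Gw_mem (x y : ι → K) (i : ι) : Gw x y i ∈ Hw K ι :=
  (Hw K ι).add_mem ((Hw K ι).add_mem ((Hw K ι).algebraMap_mem _)
    (hw_lin (some i))) ((Hw K ι).mul_mem ((Hw K ι).algebraMap_mem _) (hw_lin none))

theorem aeval_Gw_mem (x y : ι → K) (f : MvPolynomial ι K) :
    aeval (Gw x y) f ∈ Hw K ι := by
  induction f using MvPolynomial.induction_on with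
  | C a =>
    rw [aeval_C]
    exact (Hw K ι).algebraMap_mem _
  | add p q hp hq =>
    rw [map_add]
    exact (Hw K ι).add_mem hp hq
  | mul_X p i hp =>
    rw [map_mul, aeval_X]
    exact (Hw K ι).mul_mem hp (Gw_mem x y i)

theorem eval_Gw (x y : ι → K) (X0 : Option ι → K) (f : MvPolynomial ι K) (i : ℕ) :
    eval X0 ((aeval (Gw x y) f).coeff i) =
      (aeval (cn x (fun i => X0 (some i)) (fun i => X0 none * y i)) f).coeff i := by
  set ev : Polynomial (MvPolynomial (Option ι) K) →ₐ[K] Polynomial K :=
    Polynomial.mapAlgHom (aeval X0) with hev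
  have h1 : ev (aeval (Gw x y) f) =
      aeval (cn x (fun i => X0 (some i)) (fun i => X0 none * y i)) f := by
    rw [comp_aeval_apply]
    congr 2
    funext i
    unfold Gw cn
    rw [map_add, map_add, map_mul, map_mul, map_mul, map_pow, map_pow, AlgHom.commutes,
      AlgHom.commutes]
    have h2 : ∀ o, ev (Polynomial.C (X o)) = Polynomial.C (X0 o) := by
      intro o
      rw [hev, Polynomial.coe_mapAlgHom, Polynomial.map_C]
      congr 1
      exact aeval_X _ _
    have h3 : ev Polynomial.X = Polynomial.X := by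
      rw [hev, Polynomial.coe_mapAlgHom, Polynomial.map_X]
    have h4 : ∀ c : K, algebraMap K (Polynomial K) c = Polynomial.C c := fun _ => rfl
    rw [h2, h2, h3, h4, h4, Polynomial.C_mul]
    ring
  rw [← h1, hev, Polynomial.coe_mapAlgHom, Polynomial.coeff_map]
  rfl

/-- homogeneity -/
theorem aeval_smul {f : MvPolynomial ι K} {d : ℕ} (hf : f.IsHomogeneous d) {A : Type}
    [CommRing A] [Algebra K A] (u : A) (g : ι → A) :
    aeval (fun i => u * g i) f = u ^ d * aeval g f := by
  rw [aeval_def, aeval_def, eval₂_eq, eval₂_eq, Finset.mul_sum]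
  refine Finset.sum_congr rfl fun s hs => ?_
  have h1 : ∑ i ∈ s.support, s i = d := by
    have h2 := hf (mem_support_iff.1 hs)
    rw [Finsupp.weight_apply] at h2
    simpa [Finsupp.sum] using h2
  calc algebraMap K A (coeff s f) * ∏ i ∈ s.support, (u * g i) ^ s i
      = algebraMap K A (coeff s f) * (u ^ d * ∏ i ∈ s.support, g i ^ s i) := by
        rw [← h1, ← Finset.prod_pow_eq_pow_sum, ← Finset.prod_mul_distrib]
        congr 1
        exact Finset.prod_congr rfl fun i _ => mul_pow _ _ _
    _ = _ := by ring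

/-- rescaling -/
theorem scaleW {f : MvPolynomial ι K} {d : ℕ} (hf : f.IsHomogeneous d) (x y z : ι → K) (u : K)
    (hu : u ≠ 0) (i : ℕ) (h : (aeval (cn y z (fun i => u * x i)) f).coeff i = 0) :
    (aeval (cn (fun i => u * y i) z x) f).coeff i = 0 := by
  have h1 : aeval (cn (fun i => u * y i) z x) f = Polynomial.C u ^ d *
      Polynomial.aeval (Polynomial.C u⁻¹ * Polynomial.X)
        (aeval (cn y z (fun i => u * x i)) f) := by
    rw [comp_aeval_apply, ← aeval_smul hf]
    congr 2
    funext i
    unfold cn
    simp only [map_add, map_mul, map_pow, Polynomial.aeval_X, Polynomial.aeval_C]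
    have h2 : ∀ c : K, algebraMap K (Polynomial K) c = Polynomial.C c := fun _ => rfl
    simp only [h2]
    have h3 : Polynomial.C u * Polynomial.C u⁻¹ = 1 := by
      rw [← Polynomial.C_mul, mul_inv_cancel₀ hu, Polynomial.C_1]
    linear_combination (-(Polynomial.C (z i) * Polynomial.X) - (Polynomial.C (x i)) *
      Polynomial.X ^ 2 * (Polynomial.C u * Polynomial.C u⁻¹ + 1)) * h3
  rw [h1, ← Polynomial.C_pow, Polynomial.coeff_C_mul, ← Polynomial.comp_eq_aeval,
    Polynomial.comp_C_mul_X_coeff, h, zero_mul, mul_zero]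

end

/-- `x` and `y` are joined by a conic or by two lines. -/
def LinkedW {ι κ : Type} {K : Type} [Field K] (f : κ → MvPolynomial ι K) (x y : ι → K) : Prop :=
  (∃ (z : ι → K) (u : K), u ≠ 0 ∧ ∀ j, aeval (fun i => Polynomial.C (x i) +
      Polynomial.C (z i) * Polynomial.X + Polynomial.C (u * y i) * Polynomial.X ^ 2) (f j) = 0) ∨
  ∃ z : ι → K, z ≠ 0 ∧
    (∀ j, aeval (fun i => Polynomial.C (x i) + Polynomial.C (z i) * Polynomial.X) (f j) = 0) ∧
    ∀ j, aeval (fun i => Polynomial.C (z i) + Polynomial.C (y i) * Polynomial.X) (f j) = 0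

theorem linkW (φ : ℕ → ℕ) (K : Type) [Field K] (hT : Tsen φ K) (ι κ : Type) [Fintype ι]
    [Fintype κ] (d : κ → ℕ) (f : κ → MvPolynomial ι K) (hd : ∀ j, 0 < d j)
    (hf : ∀ j, (f j).IsHomogeneous (d j))
    (hcost : ∑ j, (2 * ∑ i ∈ Finset.Ico 1 (d j), φ i + φ (d j)) < φ 2 + Fintype.card ι * φ 1)
    (x y : ι → K) (hx : ∀ j, eval x (f j) = 0) (hy : ∀ j, eval y (f j) = 0) :
    LinkedW f x y := by
  obtain ⟨X0, hX0, hsol⟩ := hT (Option ι) (Σ j : κ, Fin (d j) ⊕ Fin (d j - 1)) (wo ι)
    (fun q => Sum.elim (fun i => i.1 + 1) (fun i => i.1 + 1) q.2)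
    (fun q => Sum.elim (fun i => (aeval (Gw x y) (f q.1)).coeff (i.1 + 1))
      (fun i => (aeval (Gw y x) (f q.1)).coeff (i.1 + 1)) q.2)
    (by rintro (_ | i) <;> simp [wo])
    (by rintro ⟨j, i | i⟩ <;> exact Nat.succ_pos _)
    (by
      rintro ⟨j, i | i⟩
      · exact aeval_Gw_mem x y (f j) (i.1 + 1)
      · exact aeval_Gw_mem y x (f j) (i.1 + 1))
    (by
      rw [Fintype.sum_option]
      have h0 : ∑ i : ι, φ (wo ι (some i)) = Fintype.card ι * φ 1 := by
        change ∑ _i : ι, φ 1 = _
        rw [Finset.sum_const, Finset.card_univ, smul_eq_mul]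
      rw [h0]
      refine lt_of_eq_of_lt ?_ hcost
      rw [Fintype.sum_sigma]
      refine Finset.sum_congr rfl fun j _ => ?_
      rw [Fintype.sum_sum_type]
      show ∑ i : Fin (d j), φ (i.1 + 1) + ∑ i : Fin (d j - 1), φ (i.1 + 1) = _
      rw [Fin.sum_univ_eq_sum_range (fun i => φ (i + 1)) (d j),
        Fin.sum_univ_eq_sum_range (fun i => φ (i + 1)) (d j - 1)]
      have h1 : ∑ i ∈ Finset.Ico 1 (d j), φ i = ∑ i ∈ Finset.range (d j - 1), φ (i + 1) := by
        rw [Finset.sum_Ico_eq_sum_range]
        exact Finset.sum_congr rfl fun i _ => by rw [add_comm]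
      have h2 : d j = (d j - 1) + 1 := by
        have := hd j
        omega
      rw [h1]
      conv_lhs => rw [h2]
      rw [Finset.sum_range_succ, Nat.add_sub_cancel, ← h2]
      ring)
  have hA : ∀ j, ∀ i < d j, (aeval (cn x (fun i => X0 (some i)) (fun i => X0 none * y i))
      (f j)).coeff (i + 1) = 0 := by
    intro j i hi
    rw [← eval_Gw]
    exact hsol ⟨j, Sum.inl ⟨i, hi⟩⟩
  have hB : ∀ j, ∀ i < d j - 1, (aeval (cn y (fun i => X0 (some i)) (fun i => X0 none * x i))
      (f j)).coeff (i + 1) = 0 := by
    intro j i hi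
    rw [← eval_Gw]
    exact hsol ⟨j, Sum.inr ⟨i, hi⟩⟩
  by_cases hs : X0 none = 0
  · right
    refine ⟨fun i => X0 (some i), ?_, ?_⟩
    · intro h0
      apply hX0
      funext o
      rcases o with _ | i
      · exact hs
      · exact congrFun h0 i
    · have e : ∀ x y : ι → K, cn x (fun i => X0 (some i)) (fun i => X0 none * y i) =
          ln x (fun i => X0 (some i)) := by
        intro x y
        funext i
        unfold ln cn
        simp only [hs, zero_mul, Polynomial.C_0, add_zero]
      have key : ∀ j, aeval (ln x (fun i => X0 (some i))) (f j) = 0 ∧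
          aeval (ln (fun i => X0 (some i)) y) (f j) = 0 := by
        intro j
        refine two_lines (hf j) (fun i hi => ?_) (fun i hi => ?_)
        · rcases i with _ | i
          · rw [coeff_zero_val, ← hx j]
            congr 2
            funext i
            unfold ln
            simp
          · rw [← e x y]
            exact hA j i (by omega)
        · rcases i with _ | i
          · rw [coeff_zero_val, ← hy j]
            congr 2
            funext i
            unfold ln
            simp
          · rw [← e y x]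
            exact hB j i (by omega)
      exact ⟨fun j => (key j).1, fun j => (key j).2⟩
  · left
    refine ⟨fun i => X0 (some i), X0 none, hs, fun j => ?_⟩
    refine conic (hf j) (fun i hi => ?_) (fun i hi => ?_)
    · rcases i with _ | i
      · rw [coeff_zero_val, ← hx j]
        congr 2
        funext i
        unfold cn
        simp
      · exact hA j i (by omega)
    · refine scaleW (hf j) x y _ _ hs i ?_
      rcases i with _ | i
      · rw [coeff_zero_val, ← hy j]
        congr 2
        funext i
        unfold cn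
        simp
      · exact hB j i (by omega)

end Pool.Agent.Q49.TL
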