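import Pool.Agent.Q49.TL.Alg

set_option autoImplicit false

/-!
# Project TL: points over infinite algebraic extensions of finite fields, assembly
-/

namespace Pool.Agent.Q49.TL

open MvPolynomial

section fin

variable {p : ℕ} [Fact p.Prime] {κ : Type} [Field κ] [Algebra (ZMod p) κ]
  [Algebra.IsAlgebraic (ZMod p) κ]

theorem fin_adjoin (S : Set κ) (hS : S.Finite) :
    FiniteDimensional (ZMod p) (IntermediateField.adjoin (ZMod p) S) := by
  have : Finite S := hS
  exact IntermediateField.finiteDimensional_adjoin fun x _ =>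
    (Algebra.IsAlgebraic.isAlgebraic (R := ZMod p) x).isIntegral

theorem fin_adjoin' (S : Set κ) (hS : S.Finite) :
    Finite (IntermediateField.adjoin (ZMod p) S) := by
  have := fin_adjoin (p := p) S hS
  exact Module.finite_of_finite (ZMod p)

omit [Algebra.IsAlgebraic (ZMod p) κ] in
/-- the elements of a finite subfield are the fixed points of a power of Frobenius -/
theorem fixed_mem {k : Type} [Field k] [Algebra κ k] (K : IntermediateField (ZMod p) κ)
    [Finite K] (z : k) (hz : z ^ Nat.card K = z) : z ∈ (algebraMap κ k).range := by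
  classical
  have : Fintype K := Fintype.ofFinite K
  let q := Nat.card K
  have hq : 1 < q := Finite.one_lt_card
  let P : Polynomial k := Polynomial.X ^ q - Polynomial.X
  have hP : P ≠ 0 := FiniteField.X_pow_card_sub_X_ne_zero k hq
  have hdeg : P.natDegree = q := FiniteField.X_pow_card_sub_X_natDegree_eq k hq
  let im : Finset k := Finset.univ.image fun x : K => algebraMap κ k (x : κ)
  have him : im.card = q := by
    rw [Finset.card_image_of_injective]
    · rw [Finset.card_univ, ← Nat.card_eq_fintype_card]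
    · intro a b hab
      exact Subtype.ext ((algebraMap κ k).injective hab)
  have hsub : im ⊆ P.roots.toFinset := by
    intro y hy
    obtain ⟨x, -, rfl⟩ := Finset.mem_image.1 hy
    rw [Multiset.mem_toFinset, Polynomial.mem_roots hP, Polynomial.IsRoot.def]
    simp only [P, Polynomial.eval_sub, Polynomial.eval_pow, Polynomial.eval_X]
    rw [← map_pow, ← map_sub]
    have h1 : (x : κ) ^ q = x := by
      have h2 : x ^ q = x := by
        have := FiniteField.pow_card x
        rwa [← Nat.card_eq_fintype_card] at this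
      exact_mod_cast congrArg (Subtype.val) h2
    rw [h1, sub_self, map_zero]
  have hcard : P.roots.toFinset.card ≤ im.card := by
    rw [him]
    exact (Multiset.toFinset_card_le _).trans ((Polynomial.card_roots' P).trans_eq hdeg)
  have heq := Finset.eq_of_subset_of_card_le hsub hcard
  have hzr : z ∈ P.roots.toFinset := by
    rw [Multiset.mem_toFinset, Polynomial.mem_roots hP, Polynomial.IsRoot.def]
    simp only [P, Polynomial.eval_sub, Polynomial.eval_pow, Polynomial.eval_X]
    rw [show z ^ q = z from hz, sub_self]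
  rw [← heq] at hzr
  obtain ⟨x, -, hx⟩ := Finset.mem_image.1 hzr
  exact ⟨x, hx⟩

/-- a finite subfield containing given elements -/
theorem exists_sub (S : Set κ) (hS : S.Finite) :
    ∃ (K : IntermediateField (ZMod p) κ) (_ : Finite K) (e : ℕ), 0 < e ∧ Nat.card K = p ^ e ∧
      S ⊆ K := by
  have h1 := fin_adjoin (p := p) S hS
  have h2 := fin_adjoin' (p := p) S hS
  refine ⟨_, h2, Module.finrank (ZMod p) (IntermediateField.adjoin (ZMod p) S),
    Module.finrank_pos, ?_, IntermediateField.subset_adjoin _ _⟩
  rw [Module.natCard_eq_pow_finrank (K := ZMod p), Nat.card_zmod]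

/-- larger finite subfields -/
theorem exists_big [Infinite κ] (K : IntermediateField (ZMod p) κ) [Finite K] (N : ℕ) :
    ∃ (K' : IntermediateField (ZMod p) κ) (_ : Finite K') (n : ℕ), N ≤ n ∧
      Nat.card K' = Nat.card K ^ n := by
  classical
  obtain ⟨T, hT⟩ := Infinite.exists_subset_card_eq κ (Nat.card K ^ N)
  let S : Set κ := (K : Set κ) ∪ T
  have hS : S.Finite := (Set.toFinite _).union T.finite_toSet
  have h2 := fin_adjoin' (p := p) S hS
  have hKS : K ≤ IntermediateField.adjoin (ZMod p) S := by
    intro x hx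
    exact IntermediateField.subset_adjoin _ _ (Or.inl hx)
  let _ : Algebra K (IntermediateField.adjoin (ZMod p) S) :=
    (IntermediateField.inclusion hKS).toRingHom.toAlgebra
  have hfin : Module.Finite K (IntermediateField.adjoin (ZMod p) S) := Module.Finite.of_finite
  have hcard : Nat.card (IntermediateField.adjoin (ZMod p) S) =
      Nat.card K ^ Module.finrank K (IntermediateField.adjoin (ZMod p) S) :=
    Module.natCard_eq_pow_finrank
  refine ⟨_, h2, _, ?_, hcard⟩
  have hK1 : 1 < Nat.card K := Finite.one_lt_card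
  have h3 : Nat.card K ^ N ≤ Nat.card (IntermediateField.adjoin (ZMod p) S) := by
    rw [← hT, ← Nat.card_eq_finsetCard]
    exact Nat.card_le_card_of_injective
      (fun x : T => (⟨(x : κ), IntermediateField.subset_adjoin _ _ (Or.inr x.2)⟩ :
        IntermediateField.adjoin (ZMod p) S))
      fun a b hab => Subtype.ext
        (congrArg (fun y : IntermediateField.adjoin (ZMod p) S => (y : κ)) hab)
  rw [hcard] at h3
  exact (Nat.pow_le_pow_iff_right hK1).1 h3

end fin

/-- points on hypersurfaces -/
theorem hyp_point (h2 : S_LINE) (h3 : S_ABS) (h4 : S_PCT) (p : ℕ) [Fact p.Prime] (κ : Type)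
    [Field κ] [CharP κ p] [Infinite κ] [Algebra (ZMod p) κ] [Algebra.IsAlgebraic (ZMod p) κ]
    (r : ℕ) (f : Polynomial (MvPolynomial (Fin r) κ)) (D : MvPolynomial (Fin r) κ)
    (hf : Hyp κ (MvPolynomial (Fin r) κ) (FractionRing (MvPolynomial (Fin r) κ)) f)
    (hD : D ≠ 0) (hr : 0 < r) :
    ∃ (c : Fin r → κ) (y : κ), eval c (f.eval (C y)) = 0 ∧ eval c D ≠ 0 := by
  have hperf : PerfectField κ := by
    have : PerfectField (ZMod p) := inferInstance
    exact Algebra.IsAlgebraic.perfectField (K := ZMod p)
  obtain ⟨φ, hφD, hφ⟩ := h2 κ r hr f D hf hD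
  let k := AlgebraicClosure κ
  have hcp : CharP k p := charP_of_injective_algebraMap (algebraMap κ k).injective p
  obtain ⟨h5, h6⟩ := h3 κ k _ hφ
  let f1 : Polynomial (Polynomial κ) :=
    f.map (φ : MvPolynomial (Fin r) κ →+* Polynomial κ)
  let S : Set κ := ⋃ i ∈ f1.support, ⋃ j ∈ (f1.coeff i).support, {(f1.coeff i).coeff j}
  have hS : S.Finite := by
    refine Set.Finite.biUnion (Finset.finite_toSet _) fun i _ => ?_
    exact Set.Finite.biUnion (Finset.finite_toSet _) fun j _ => Set.finite_singleton _
  obtain ⟨K, hK, e, he, hcard, hSK⟩ := exists_sub (p := p) S hS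
  have hfix : ∀ x ∈ K, x ^ p ^ e = x := by
    intro x hx
    have : Fintype K := Fintype.ofFinite K
    have h7 := FiniteField.pow_card (⟨x, hx⟩ : K)
    rw [← Nat.card_eq_fintype_card, hcard] at h7
    exact congrArg Subtype.val h7
  obtain ⟨N, hN⟩ := h4 k p e he (f1.map (Polynomial.mapRingHom (algebraMap κ k)))
    ((φ D).map (algebraMap κ k)) (hφ.monic.map _) (by
      intro i j
      rw [Polynomial.coeff_map, Polynomial.coe_mapRingHom, Polynomial.coeff_map, ← map_pow]
      congr 1
      by_cases hi : f1.coeff i = 0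
      · rw [hi, Polynomial.coeff_zero, zero_pow]
        exact pow_ne_zero _ (Fact.out : p.Prime).ne_zero
      by_cases hj : (f1.coeff i).coeff j = 0
      · rw [hj, zero_pow]
        exact pow_ne_zero _ (Fact.out : p.Prime).ne_zero
      apply hfix
      apply hSK
      simp only [S, Set.mem_iUnion]
      exact ⟨i, Polynomial.mem_support_iff.2 hi, j, Polynomial.mem_support_iff.2 hj, rfl⟩)
    ((Polynomial.map_ne_zero_iff (algebraMap κ k).injective).2 hφD) h5 h6
  obtain ⟨K', hK', n, hn, hcard'⟩ := exists_big K N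
  obtain ⟨c, y, hc, hy, hfc, hDc⟩ := hN n hn
  rw [hcard] at hcard'
  rw [← hcard'] at hc hy
  obtain ⟨c0, rfl⟩ := fixed_mem K' c hc
  obtain ⟨y0, rfl⟩ := fixed_mem K' y hy
  refine ⟨fun i => (φ (X i)).eval c0, y0, ?_, ?_⟩
  · have h8 : ∀ g : MvPolynomial (Fin r) κ,
        eval (fun i => (φ (X i)).eval c0) g = (φ g).eval c0 := by
      intro g
      have : (eval (fun i => (φ (X i)).eval c0) : MvPolynomial (Fin r) κ →+* κ) =
          (Polynomial.evalRingHom c0).comp (φ : MvPolynomial (Fin r) κ →+* Polynomial κ) := by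
        apply MvPolynomial.ringHom_ext
        · intro a
          simp only [eval_C, RingHom.comp_apply, RingHom.coe_coe]
          rw [← algebraMap_eq, AlgHom.commutes]
          simp
        · intro i
          simp
      exact RingHom.congr_fun this g
    rw [h8]
    have h9 : φ (f.eval (C y0)) = f1.eval (Polynomial.C y0) := by
      rw [← AlgHom.coe_toRingHom, ← Polynomial.eval_map_apply]
      congr 1
      rw [AlgHom.coe_toRingHom, ← algebraMap_eq, AlgHom.commutes, Polynomial.algebraMap_eq]
    rw [h9]
    apply (algebraMap κ k).injective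
    rw [map_zero, ← hfc]
    have h10 : (Polynomial.C (algebraMap κ k y0) : Polynomial k) =
        Polynomial.mapRingHom (algebraMap κ k) (Polynomial.C y0) := by
      rw [Polynomial.coe_mapRingHom, Polynomial.map_C]
    rw [h10, Polynomial.eval_map_apply, Polynomial.coe_mapRingHom, Polynomial.eval_map_apply]
  · intro h0
    apply hDc
    have h8 : (eval (fun i => (φ (X i)).eval c0) : MvPolynomial (Fin r) κ →+* κ) =
          (Polynomial.evalRingHom c0).comp (φ : MvPolynomial (Fin r) κ →+* Polynomial κ) := by
      apply MvPolynomial.ringHom_ext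
      · intro a
        simp only [eval_C, RingHom.comp_apply, RingHom.coe_coe]
        rw [← algebraMap_eq, AlgHom.commutes]
        simp
      · intro i
        simp
    have h9 : (φ D).eval c0 = 0 := (RingHom.congr_fun h8 D).symm.trans h0
    rw [Polynomial.eval_map_apply, h9, map_zero]

/-- the case without variables -/
theorem hyp_point0 (κ : Type) [Field κ] (f : Polynomial (MvPolynomial (Fin 0) κ))
    (hf : Hyp κ (MvPolynomial (Fin 0) κ) (FractionRing (MvPolynomial (Fin 0) κ)) f)
    (D : MvPolynomial (Fin 0) κ) (hD : D ≠ 0) :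
    ∃ (c : Fin 0 → κ) (y : κ), eval c (f.eval (C y)) = 0 ∧ eval c D ≠ 0 := by
  let A := MvPolynomial (Fin 0) κ
  let E := FractionRing A
  let c : Fin 0 → κ := fun i => i.elim0
  have hC : ∀ a : A, a = C (eval c a) := by
    intro a
    rw [eq_C_of_isEmpty a, eval_C]
  have hfact : Fact (Irreducible (f.map (algebraMap A E))) := ⟨hf.irr⟩
  let z : AdjoinRoot (f.map (algebraMap A E)) := AdjoinRoot.root _
  let f0 : Polynomial κ := f.map (eval c)
  have hf0 : f = f0.map (C : κ →+* A) := by
    ext1 i
    rw [Polynomial.coeff_map, Polynomial.coeff_map]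
    exact hC _
  have hz2 : Polynomial.aeval z f0 = 0 := by
    have h1 := AdjoinRoot.eval₂_root (f.map (algebraMap A E))
    have hg : f.map (algebraMap A E) = f0.map ((algebraMap A E).comp C) := by
      rw [← Polynomial.map_map, ← hf0]
    have h2 : Polynomial.eval₂ (AdjoinRoot.of (f.map (algebraMap A E))) z
        (f.map (algebraMap A E)) = Polynomial.eval₂ (AdjoinRoot.of (f.map (algebraMap A E))) z
        (f0.map ((algebraMap A E).comp C)) :=
      congrArg (fun t => Polynomial.eval₂ (AdjoinRoot.of (f.map (algebraMap A E))) z t) hg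
    rw [h1, Polynomial.eval₂_map] at h2
    rw [Polynomial.aeval_def]
    exact h2.symm
  have hz : IsAlgebraic κ z := ⟨f0, (hf.monic.map _).ne_zero, hz2⟩
  obtain ⟨y, hy⟩ := hf.con z hz
  have hy0 : f0.eval y = 0 := by
    apply (algebraMap κ (AdjoinRoot (f.map (algebraMap A E)))).injective
    rw [map_zero, ← hz2, ← hy, Polynomial.aeval_algebraMap_apply, Polynomial.coe_aeval_eq_eval]
  refine ⟨c, y, ?_, ?_⟩
  · rw [hf0, Polynomial.eval_map_apply, eval_C, hy0]
  · intro h0
    apply hD
    rw [hC D, h0, C_0]

theorem pacf (h1 : S_PRIM) (h2 : S_LINE) (h3 : S_ABS) (h4 : S_PCT) : S_PACF := by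
  intro p _ κ _ _ _ hx ι _ P _ g hg hc
  let _ : Algebra (ZMod p) κ := ZMod.algebra κ p
  have halg : Algebra.IsAlgebraic (ZMod p) κ := by
    constructor
    intro x
    obtain ⟨e, he, hxe⟩ := hx x
    refine ⟨Polynomial.X ^ p ^ e - Polynomial.X, ?_, ?_⟩
    · exact FiniteField.X_pow_card_sub_X_ne_zero (ZMod p)
        (Nat.one_lt_pow he.ne' (Fact.out : p.Prime).one_lt)
    · simp [hxe]
  have hperf : PerfectField κ := Algebra.IsAlgebraic.perfectField (K := ZMod p)
  obtain ⟨r, f, D, hf, hD, hlift⟩ := h1 κ ι P g hg hc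
  rcases Nat.eq_zero_or_pos r with hr | hr
  · subst hr
    obtain ⟨c, y, hcy, hcD⟩ := hyp_point0 κ f hf D hD
    exact hlift c y hcy hcD
  · obtain ⟨c, y, hcy, hcD⟩ := hyp_point h2 h3 h4 p κ r f D hf hD hr
    exact hlift c y hcy hcD

end Pool.Agent.Q49.TL
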