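import Pool.Agent.Q49.TL.Alg
import Pool.Agent.W493.MX.A
import Pool.Agent.W493.MX.B
import Pool.Agent.W493.MX.G
import Pool.Agent.W493.MX.E
import Pool.Agent.H81R2.BT.TaskA

set_option autoImplicit false
set_option linter.all false

/-!
# Project TL: points on absolutely irreducible plane curves over finite fields
-/

namespace Pool.Agent.Q49.TL

open Module FF Pool.Agent.H525R3.FFp Pool.Agent.W132.AG Polynomial
open Pool.Agent.W493.MX (FrobAt Stb cE s_A s_B s_G1 s_G2 exists_twist exists_const red_const)

section place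

variable {k E : Type} [Field k] [IsAlgClosed k] [Field E] [Algebra k E] [Algebra (RatFunc k) E]
  [IsScalarTower k (RatFunc k) E] [IsFF k E]

theorem bij_RF (P : Place k E) : Function.Bijective (algebraMap k P.RF) :=
  ⟨(algebraMap k P.RF).injective, fun x => by
    obtain ⟨c, hc⟩ := exists_const P x
    exact ⟨c, hc.symm⟩⟩

/-- the residue map with values in the constants -/
noncomputable def eps (P : Place k E) : P.O →+* k :=
  ((RingEquiv.ofBijective (algebraMap k P.RF) (bij_RF P)).symm.toRingHom).comp P.resHom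

theorem eps_spec (P : Place k E) {z : E} (hz : P.Reg z) :
    algebraMap k P.RF (eps P ⟨z, hz⟩) = P.red z := by
  rw [P.red_of_reg hz]
  exact (RingEquiv.ofBijective (algebraMap k P.RF) (bij_RF P)).apply_symm_apply _

/-- the polynomials in the valuation ring -/
theorem reg_cE (P : Place k E) (hX : P.Reg (cE E (X : k[X]))) (a : k[X]) : P.Reg (cE E a) := by
  induction a using Polynomial.induction_on' with
  | add p q hp hq =>
    have : cE E (p + q) = cE E p + cE E q := by simp [cE]
    rw [this]
    exact P.reg_add hp hq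
  | monomial n c =>
    have : cE E (monomial n c : k[X]) = algebraMap k E c * (cE E (X : k[X])) ^ n := by
      rw [← C_mul_X_pow_eq_monomial]
      unfold cE
      rw [map_mul, map_mul, map_pow, map_pow, IsScalarTower.algebraMap_apply k (RatFunc k) E]
      rfl
    rw [this]
    exact P.reg_mul (P.reg_const c) (Pool.Agent.W493.MX.reg_pow' P hX n)

/-- the polynomials as elements of the valuation ring -/
noncomputable def tht (P : Place k E) (hX : P.Reg (cE E (X : k[X]))) : k[X] →+* P.O :=
  ((algebraMap (RatFunc k) E).comp (algebraMap k[X] (RatFunc k))).codRestrict P.O.toSubring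
    (fun a => reg_cE P hX a)

theorem tht_val (P : Place k E) (hX : P.Reg (cE E (X : k[X]))) (a : k[X]) :
    ((tht P hX a : P.O) : E) = cE E a := rfl

theorem cE_X_sub (c : k) : cE E (X - C c : k[X]) = cE E (X : k[X]) - algebraMap k E c := by
  unfold cE
  rw [map_sub, map_sub, IsScalarTower.algebraMap_apply k (RatFunc k) E]
  rfl

theorem reg_X (P : Place k E) (c : k) (h : 0 < P.ord (cE E (X - C c : k[X]))) :
    P.Reg (cE E (X : k[X])) := by
  have h1 : cE E (X : k[X]) = cE E (X - C c : k[X]) + algebraMap k E c := by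
    rw [cE_X_sub, sub_add_cancel]
  rw [h1]
  exact P.reg_add (Or.inr h.le) (P.reg_const c)

theorem eps_tht (P : Place k E) (c : k) (h : 0 < P.ord (cE E (X - C c : k[X]))) (a : k[X]) :
    eps P (tht P (reg_X P c h) a) = a.eval c := by
  have h1 : (eps P).comp (tht P (reg_X P c h)) = evalRingHom c := by
    apply Polynomial.ringHom_ext
    · intro b
      apply (algebraMap k P.RF).injective
      have h2 : tht P (reg_X P c h) (C b) = ⟨cE E (C b : k[X]), reg_cE P (reg_X P c h) _⟩ := rfl
      rw [RingHom.comp_apply, h2, eps_spec]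
      have h3 : cE E (C b : k[X]) = algebraMap k E b := by
        unfold cE
        rw [IsScalarTower.algebraMap_apply k (RatFunc k) E]
        rfl
      rw [h3, red_const]
      simp
    · apply (algebraMap k P.RF).injective
      have h2 : tht P (reg_X P c h) X = ⟨cE E (X : k[X]), reg_X P c h⟩ := rfl
      rw [RingHom.comp_apply, h2, eps_spec]
      have h4 : P.red (cE E (X - C c : k[X])) = 0 :=
        (P.red_eq_zero_iff (Or.inr h.le)).2 (Or.inr h)
      rw [cE_X_sub, P.red_sub (reg_X P c h) (P.reg_const c), sub_eq_zero, red_const] at h4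
      rw [h4]
      simp
  exact RingHom.congr_fun h1 a

/-- a regular root reduces to a root -/
theorem root_red (P : Place k E) (c : k) (h : 0 < P.ord (cE E (X - C c : k[X]))) (f : k[X][X])
    {y : E} (hy : P.Reg y)
    (hfy : (f.map ((algebraMap (RatFunc k) E).comp (algebraMap k[X] (RatFunc k)))).eval y = 0) :
    (f.map (tht P (reg_X P c h))).eval ⟨y, hy⟩ = 0 := by
  apply Subtype.ext
  have h1 : ((f.map (tht P (reg_X P c h))).map P.O.subtype).eval y = 0 := by
    rw [Polynomial.map_map]
    exact hfy
  have h2 := Polynomial.eval_map_apply (p := f.map (tht P (reg_X P c h))) P.O.subtype ⟨y, hy⟩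
  exact h2.symm.trans h1

theorem f_eps (P : Place k E) (c : k) (h : 0 < P.ord (cE E (X - C c : k[X]))) (f : k[X][X]) :
    (f.map (tht P (reg_X P c h))).map (eps P) = f.map (evalRingHom c) := by
  rw [Polynomial.map_map]
  congr 1
  refine RingHom.ext fun a => ?_
  exact eps_tht P c h a

/-- different roots have different residues -/
theorem root_sep (P : Place k E) (c : k) (h : 0 < P.ord (cE E (X - C c : k[X]))) (f : k[X][X])
    (hsep : (f.map (evalRingHom c)).Separable) {y y' : E} (hy : P.Reg y) (hy' : P.Reg y')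
    (hfy : (f.map ((algebraMap (RatFunc k) E).comp (algebraMap k[X] (RatFunc k)))).eval y = 0)
    (hfy' : (f.map ((algebraMap (RatFunc k) E).comp (algebraMap k[X] (RatFunc k)))).eval y' = 0)
    (hred : P.red y = P.red y') : y = y' := by
  by_contra hne
  let g : P.O[X] := f.map (tht P (reg_X P c h))
  let a : P.O := ⟨y, hy⟩
  let b : P.O := ⟨y', hy'⟩
  have hga : g.eval a = 0 := root_red P c h f hy hfy
  have hgb : g.eval b = 0 := root_red P c h f hy' hfy'
  have hab : b - a ≠ 0 := by
    intro h0
    apply hne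
    exact (congrArg Subtype.val (sub_eq_zero.1 h0)).symm
  obtain ⟨t, ht⟩ := g.binomExpansion a (b - a)
  rw [add_sub_cancel, hgb, hga, zero_add] at ht
  have h1 : g.derivative.eval a + t * (b - a) = 0 := by
    apply (mul_eq_zero.1 (show (g.derivative.eval a + t * (b - a)) * (b - a) = 0 by
      rw [ht]; ring)).resolve_right hab
  have heps : eps P (b - a) = 0 := by
    apply (algebraMap k P.RF).injective
    rw [map_sub, map_sub, map_zero, sub_eq_zero, eps_spec P hy', eps_spec P hy, hred]
  have h2 : eps P (g.derivative.eval a) = 0 := by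
    have h3 := congrArg (eps P) h1
    rw [map_add, map_mul, heps, mul_zero, add_zero, map_zero] at h3
    exact h3
  have h4 : (f.map (evalRingHom c)).derivative.eval (eps P a) = 0 := by
    rw [← f_eps P c h f, Polynomial.derivative_map, Polynomial.eval_map_apply]
    exact h2
  have h5 : (f.map (evalRingHom c)).eval (eps P a) = 0 := by
    rw [← f_eps P c h f, Polynomial.eval_map_apply]
    change eps P (g.eval a) = 0
    rw [hga, map_zero]
  obtain ⟨u, v, huv⟩ := hsep
  have h6 := congrArg (Polynomial.eval (eps P a)) huv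
  rw [eval_add, eval_mul, eval_mul, h4, h5, mul_zero, mul_zero, add_zero, eval_one] at h6
  exact zero_ne_one h6

theorem root_reg (P : Place k E) (c : k) (h : 0 < P.ord (cE E (X - C c : k[X]))) (f : k[X][X])
    (hmon : f.Monic) {y : E}
    (hfy : (f.map ((algebraMap (RatFunc k) E).comp (algebraMap k[X] (RatFunc k)))).eval y = 0) :
    P.Reg y := by
  have h1 : IsIntegral P.O y := by
    refine ⟨f.map (tht P (reg_X P c h)), hmon.map _, ?_⟩
    rw [eval₂_map]
    rw [eval_map] at hfy
    exact hfy
  obtain ⟨z, hz⟩ := IsIntegrallyClosed.algebraMap_eq_of_integral h1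
  rw [← hz]
  exact z.2

end place

theorem pct : S_PCT := by
  intro k _ _ p e _ _ he f D hmon hco hD hirr hsep
  classical
  let K := RatFunc k
  let fK : K[X] := f.map (algebraMap k[X] K)
  have hperf : PerfectRing k p := inferInstance
  let fr : k ≃+* k := iterateFrobeniusEquiv k p e
  have hfr : ∀ x, fr x = x ^ p ^ e := fun x => rfl
  let φ : K ≃+* K := IsFractionRing.ringEquivOfRingEquiv (Polynomial.mapEquiv fr)
  have hφ : ∀ g : k[X], φ (algebraMap k[X] K g) = algebraMap k[X] K (g.map (fr : k →+* k)) := by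
    intro g
    exact IsFractionRing.ringEquivOfRingEquiv_algebraMap _ g
  have hfix : ∀ g : k[X], (∀ i, g.coeff i ^ p ^ e = g.coeff i) → g.map (fr : k →+* k) = g := by
    intro g hg
    ext i
    rw [Polynomial.coeff_map]
    exact hg i
  have hfφ : fK.map (φ : K →+* K) = fK := by
    ext i
    rw [Polynomial.coeff_map, Polynomial.coeff_map]
    change φ (algebraMap k[X] K (f.coeff i)) = _
    rw [hφ, hfix _ (hco i)]
  let E := fK.SplittingField
  have hFF : IsFF k K := isFF_base (x := (RatFunc.X : RatFunc k)) RatFunc.transcendental_X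
    RatFunc.adjoin_X
  have hFFE : IsFF k E := isFF_of_ext (F := K)
  have hGal : IsGalois K E := IsGalois.of_separable_splitting_field hsep
  obtain ⟨Φ, hΦ⟩ := exists_twist (E := E) fK φ hfφ
  have hcomm : ∀ c : k, Φ (algebraMap k E c) = algebraMap k E (c ^ p ^ e) := by
    intro c
    have h1 : ∀ c : k, algebraMap k K c = algebraMap k[X] K (C c) := fun c => rfl
    rw [IsScalarTower.algebraMap_apply k K E, hΦ, h1, hφ, Polynomial.map_C,
      IsScalarTower.algebraMap_apply k K E, h1]
    rfl
  have hΦX : Φ (cE E (X : k[X])) = cE E (X : k[X]) := by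
    change Φ (algebraMap K E (algebraMap k[X] K X)) = algebraMap K E (algebraMap k[X] K X)
    rw [hΦ, hφ, Polynomial.map_X]
  obtain ⟨d, hd0, hd⟩ := Pool.Agent.H81R2.BT.exists_sep_bad f hsep
  let bad : Finset k := (D * d).roots.toFinset
  have hbad : ∀ c, c ∉ bad → D.eval c ≠ 0 ∧ d.eval c ≠ 0 := by
    intro c hc
    have h1 : ¬ (D * d).IsRoot c := by
      intro h2
      apply hc
      rw [Multiset.mem_toFinset, Polynomial.mem_roots (mul_ne_zero hD hd0)]
      exact h2
    rw [IsRoot, eval_mul] at h1
    exact ⟨left_ne_zero_of_mul h1, right_ne_zero_of_mul h1⟩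
  have hroot : ∀ y : E, aeval y fK = 0 →
      (f.map ((algebraMap K E).comp (algebraMap k[X] K))).eval y = 0 := by
    intro y hy
    rw [← Polynomial.map_map, eval_map_algebraMap]
    exact hy
  have hstab : ∀ (P : Place k E) (c : k), c ∉ bad → 0 < P.ord (cE E (X - C c : k[X])) →
      ∀ σ : E ≃ₐ[RatFunc k] E, Stb P σ → σ = 1 := by
    intro P c hc h σ hσ
    have h1 : Algebra.adjoin K (fK.rootSet E) = ⊤ := IsSplittingField.adjoin_rootSet E fK
    have h2 : (σ : E →ₐ[K] E) = ((1 : E ≃ₐ[K] E) : E →ₐ[K] E) := by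
      refine AlgHom.ext_of_adjoin_eq_top h1 ?_
      intro v hv
      have hv0 : aeval v fK = 0 := (Polynomial.mem_rootSet.1 hv).2
      have hv1 : aeval (σ v) fK = 0 := by
        have h3 := Polynomial.aeval_algHom_apply (σ : E →ₐ[K] E) v fK
        rw [hv0, map_zero] at h3
        exact h3
      have hr0 := root_reg P c h f hmon (hroot v hv0)
      have hr1 := root_reg P c h f hmon (hroot _ hv1)
      exact root_sep P c h f (hd k (evalRingHom c) (hbad c hc).2) hr1 hr0 (hroot _ hv1)
        (hroot _ hv0) (Pool.Agent.W493.MX.Stb.red hσ hr0).2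
    ext z
    exact DFunLike.congr_fun h2 z
  obtain ⟨N, hN⟩ := s_B s_A s_G1 s_G2 k E p e he Φ hcomm hΦX bad hstab
  refine ⟨N, fun n hn => ?_⟩
  have hdeg : fK.degree ≠ 0 := (Polynomial.degree_pos_of_irreducible hirr).ne'
  have hsplit : (fK.map (algebraMap K E)).Splits := IsSplittingField.splits E fK
  obtain ⟨y0, hy0⟩ := hsplit.exists_eval_eq_zero (by
    rw [Polynomial.degree_map]
    exact hdeg)
  have hy0' : aeval y0 fK = 0 := by
    rw [← eval_map_algebraMap]
    exact hy0
  have hΦn : ∀ (m : ℕ) (z : E), aeval z fK = 0 → aeval ((Φ ^ m : E ≃+* E).symm z) fK = 0 := by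
    have hone : ∀ z : E, aeval z fK = 0 → aeval (Φ.symm z) fK = 0 := by
      intro z hz
      have h1 : ∀ y : E, Φ (aeval y fK) = aeval (Φ y) fK := by
        intro y
        rw [aeval_def, aeval_def, Polynomial.eval₂_eq_sum_range, map_sum,
          Polynomial.eval₂_eq_sum_range]
        refine Finset.sum_congr rfl fun i _ => ?_
        rw [map_mul, map_pow, hΦ]
        congr 2
        have h2 := congrArg (fun g => g.coeff i) hfφ
        simp only [Polynomial.coeff_map] at h2
        exact h2
      apply Φ.injective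
      rw [h1, RingEquiv.apply_symm_apply, hz, map_zero]
    intro m
    induction m with
    | zero =>
      intro z hz
      exact hz
    | succ m ih =>
      intro z hz
      have h1 : (Φ ^ (m + 1) : E ≃+* E).symm z = Φ.symm ((Φ ^ m : E ≃+* E).symm z) := by
        apply (Φ ^ (m + 1) : E ≃+* E).injective
        rw [RingEquiv.apply_symm_apply, pow_succ]
        change z = (Φ ^ m : E ≃+* E) (Φ (Φ.symm ((Φ ^ m : E ≃+* E).symm z)))
        rw [RingEquiv.apply_symm_apply, RingEquiv.apply_symm_apply]
      rw [h1]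
      exact hone _ (ih z hz)
  have hmin : minpoly K y0 = fK := (minpoly.eq_of_irreducible_of_monic hirr hy0' (hmon.map _)).symm
  obtain ⟨σ, hσ⟩ := minpoly.exists_algEquiv_of_root' (K := K) (y := y0)
    (x := (Φ ^ n : E ≃+* E).symm y0) (Algebra.IsAlgebraic.isAlgebraic y0)
    (by rw [hmin]; exact hΦn n y0 hy0')
  obtain ⟨P, c, hcb, hc, hord, hfrob⟩ := hN n hn σ
  have hr0 := root_reg P c hord f hmon (hroot y0 hy0')
  have h1 := (hfrob y0 hr0).2
  have h2 : ((Φ ^ n : E ≃+* E) * σ.toRingEquiv) y0 = y0 := by
    change (Φ ^ n : E ≃+* E) (σ y0) = y0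
    rw [hσ, RingEquiv.apply_symm_apply]
  rw [h2] at h1
  refine ⟨c, eps P ⟨y0, hr0⟩, hc, ?_, ?_, (hbad c hcb).1⟩
  · apply (algebraMap k P.RF).injective
    rw [map_pow, eps_spec]
    exact h1.symm
  · have h3 : (f.map (evalRingHom c)).eval (eps P ⟨y0, hr0⟩) = 0 := by
      rw [← f_eps P c hord f, Polynomial.eval_map_apply, root_red P c hord f hr0 (hroot y0 hy0'),
        map_zero]
    have h4 := Polynomial.eval_map_apply (p := f) (evalRingHom c)
      (C (eps P ⟨y0, hr0⟩) : k[X])
    have h5 : evalRingHom c (C (eps P ⟨y0, hr0⟩) : k[X]) = eps P ⟨y0, hr0⟩ := by simp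
    rw [h5, h3] at h4
    exact h4.symm

end Pool.Agent.Q49.TL
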