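import Pool.Agent.Q49.TL.Tk
import Pool.Agent.Q49.TL.Wp
import Pool.Agent.Q177.TL.Line
import Pool.Agent.Q216.TL.Wit
import Pool.Agent.Q216.TL.Unr
import Pool.Agent.Q34.TL.Gwi
import Pool.Agent.Q34.TL.Hen
import Pool.Agent.Q225.TL.Kap
import Pool.Agent.Q225.TL.Gen
import Pool.Agent.Q225.TL.Dsc

set_option autoImplicit false

/-!
# Project TL: systems over `p`-adic fields and extensions of degree prime to `ℓ`
-/

namespace Pool.Agent.Q49.TL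

open MvPolynomial

theorem padic (p ℓ : ℕ) [Fact p.Prime] [Fact ℓ.Prime] (hpl : p ≠ ℓ) (K : Type) [Field K]
    [Algebra ℚ_[p] K] [FiniteDimensional ℚ_[p] K] (ι κ : Type) [Fintype ι] [Fintype κ]
    (w : ι → ℕ) (e : κ → ℕ) (f : κ → MvPolynomial ι K) (hw : ∀ i, 0 < w i) (he : ∀ j, 0 < e j)
    (hf : ∀ j, IsWeightedHomogeneous w (f j) (e j))
    (hlt : ∑ j, e j * ℓ ^ (e j).factorization ℓ < ∑ i, w i * ℓ ^ (w i).factorization ℓ) :
    ∃ (L : Type) (_ : Field L) (_ : Algebra K L), FiniteDimensional K L ∧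
      ¬ ℓ ∣ Module.finrank K L ∧ ∃ x : ι → L, x ≠ 0 ∧ ∀ j, aeval x (f j) = 0 :=
  wp3 (Pool.Agent.Q216.TL.wit Q34.TL.gwi Pool.Agent.Q225.TL.kap
      (s_TK Pool.Agent.Q177.TL.Line.line)) (grb Pool.Agent.Q225.TL.gen Q34.TL.hen)
    Pool.Agent.Q216.TL.unr Pool.Agent.Q225.TL.dsc p ℓ hpl K ι κ w e f hw he hf hlt

end Pool.Agent.Q49.TL
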