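import Pool.Agent.Q49.TL.Chev
import Pool.Agent.Q49.TL.Pacf
import Pool.Agent.Q49.TL.Pct
import Pool.Agent.Q49.TL.Pad
import Pool.Agent.Q146.TL.Hs
import Pool.Agent.Q146.TL.Top
import Pool.Agent.Q146.TL.Fld
import Pool.Agent.Q225.TL.Noe
import Pool.Agent.Q146.TL.Desc
import Pool.Agent.Q146.TL.Ord
import Pool.Agent.Q34.TL.Pt
import Pool.Agent.Q210.TL.Prim
import Pool.Agent.Q146.TL.Abs

set_option autoImplicit false

/-!
# Project TL: the theorem of Chevalley at the prime `ℓ`
-/

namespace Pool.Agent.Q49.TL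

theorem s_A : S_A :=
  chev (Pool.Agent.Q146.TL.Top.top Pool.Agent.Q146.TL.Hs.hs_mul)
    (Pool.Agent.Q146.TL.Fld.fld Pool.Agent.Q146.TL.Hs.fd)
    (Pool.Agent.Q225.TL.noe Pool.Agent.Q146.TL.Hs.fd Pool.Agent.Q146.TL.Hs.hs_mul)
    (Pool.Agent.Q146.TL.Desc.desc Pool.Agent.Q146.TL.Hs.hs_mul)
    Pool.Agent.Q146.TL.Ord.ord Q34.TL.pt

theorem s_PACF (hline : S_LINE) : S_PACF :=
  pacf Pool.Agent.Q210.TL.prim hline Pool.Agent.Q146.TL.Abs.abs_irr pct

theorem infinite_of (p ℓ : ℕ) [Fact p.Prime] [Fact ℓ.Prime] (κ : Type) [Field κ] [CharP κ p]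
    (h : ∀ g : Polynomial κ, Irreducible g → g.natDegree ≠ 1 → ℓ ∣ g.natDegree) :
    Infinite κ := by
  rw [← not_finite_iff_infinite]
  intro hfin
  have hℓ : ℓ.Prime := Fact.out
  let E := FiniteField.Extension κ p (ℓ + 1)
  have hfr : Module.finrank κ E = ℓ + 1 := FiniteField.finrank_extension κ p (ℓ + 1)
  obtain ⟨α, hα⟩ := Field.exists_primitive_element κ E
  have hint : IsIntegral κ α := Algebra.IsIntegral.isIntegral α
  have h1 : (minpoly κ α).natDegree = ℓ + 1 := by
    rw [← IntermediateField.adjoin.finrank hint, hα, IntermediateField.finrank_top', hfr]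
  have h2 := h (minpoly κ α) (minpoly.irreducible hint) (by
    rw [h1]
    have := hℓ.pos
    omega)
  rw [h1] at h2
  have h3 : ℓ ∣ 1 := (Nat.dvd_add_right (dvd_refl ℓ)).1 h2
  exact hℓ.one_lt.ne' (Nat.dvd_one.1 h3)

theorem s_TK (hline : S_LINE) : S_TK := by
  intro p ℓ _ _ κ _ _ halg hℓ
  haveI : CharP κ p := charP_of_injective_algebraMap (algebraMap (ZMod p) κ).injective p
  haveI : Infinite κ := infinite_of p ℓ κ hℓ
  refine s_A ℓ κ (s_PACF hline p κ fun x => ?_) hℓ
  have hint : IsIntegral (ZMod p) x := (halg.isAlgebraic x).isIntegral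
  haveI : FiniteDimensional (ZMod p) (IntermediateField.adjoin (ZMod p) {x}) :=
    IntermediateField.adjoin.finiteDimensional hint
  haveI : Finite (IntermediateField.adjoin (ZMod p) {x}) := Module.finite_of_finite (ZMod p)
  haveI : Fintype (IntermediateField.adjoin (ZMod p) {x}) := Fintype.ofFinite _
  refine ⟨Module.finrank (ZMod p) (IntermediateField.adjoin (ZMod p) {x}),
    Module.finrank_pos, ?_⟩
  have h1 := FiniteField.pow_card (IntermediateField.AdjoinSimple.gen (ZMod p) x)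
  rw [Module.card_eq_pow_finrank (K := ZMod p), ZMod.card] at h1
  have h2 := congrArg (algebraMap (IntermediateField.adjoin (ZMod p) {x}) κ) h1
  rw [map_pow, IntermediateField.AdjoinSimple.algebraMap_gen] at h2
  exact h2

end Pool.Agent.Q49.TL
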